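import Mathlib

/-!
# Drawings, thrackles and maximal thrackles in the plane

All definitions follow the problem file.
-/

set_option autoImplicit false

namespace Pool.Agent.Work.MP_2f2fa8_co

/-- The plane. -/
abbrev Plane := ℝ × ℝ

/-- `A` is a Jordan arc with end points `p` and `q`: the image of `[0,1]` under an injective
continuous map that sends `0` to `p` and `1` to `q`. -/
def IsJordanArc (A : Set Plane) (p q : Plane) : Prop :=
  ∃ γ : ℝ → Plane, ContinuousOn γ (Set.Icc 0 1) ∧ Set.InjOn γ (Set.Icc 0 1) ∧
    γ 0 = p ∧ γ 1 = q ∧ γ '' Set.Icc 0 1 = A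

/-- The sets `A` and `B` (two arcs) cross properly at `p`: some homeomorphism `φ` from an open
neighbourhood of `p` onto an open subset of the plane sends `p` to the origin, `A` to the
`x`-axis and `B` to the `y`-axis. -/
def ProperCrossing (A B : Set Plane) (p : Plane) : Prop :=
  ∃ φ : OpenPartialHomeomorph Plane Plane, p ∈ φ.source ∧ φ p = 0 ∧
    (∀ x ∈ φ.source, x ∈ A ↔ (φ x).2 = 0) ∧ (∀ x ∈ φ.source, x ∈ B ↔ (φ x).1 = 0)

/-- A drawing of the simple graph `G` in the plane: the vertices are placed at distinct points
and every edge `uv` is drawn as a Jordan arc with end points `u` and `v` that passes through no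
other vertex.  (Only the values of `arc` on the edges of `G` are used.) -/
structure Drawing {V : Type*} (G : SimpleGraph V) where
  /-- the point at which a vertex is placed -/
  pos : V → Plane
  /-- the arc that represents an edge -/
  arc : Sym2 V → Set Plane
  pos_injective : Function.Injective pos
  isJordanArc : ∀ u v, G.Adj u v → IsJordanArc (arc s(u, v)) (pos u) (pos v)
  avoids : ∀ u v w, G.Adj u v → pos w ∈ arc s(u, v) → w = u ∨ w = v

/-- The drawing is a thrackle: any two distinct edges have exactly one point in common, which is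
either a common end point or, if the two edges have no common end point, a proper crossing. -/
def Drawing.IsThrackle {V : Type*} {G : SimpleGraph V} (D : Drawing G) : Prop :=
  ∀ e ∈ G.edgeSet, ∀ f ∈ G.edgeSet, e ≠ f →
    (∃ v, v ∈ e ∧ v ∈ f ∧ D.arc e ∩ D.arc f = {D.pos v}) ∨
    ((∀ v, v ∈ e → v ∉ f) ∧
      ∃ p, D.arc e ∩ D.arc f = {p} ∧ ProperCrossing (D.arc e) (D.arc f) p)

/-- The drawing `D` is a maximal thrackle: it is a thrackle, and for any two distinct
non-adjacent vertices `u`, `v` no Jordan arc from `u` to `v` can be added to the fixed drawing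
`D` so that the result is again a thrackle. -/
def Drawing.IsMaximalThrackle {V : Type*} {G : SimpleGraph V} (D : Drawing G) : Prop :=
  D.IsThrackle ∧
  ∀ u v, u ≠ v → ¬ G.Adj u v → ∀ D' : Drawing (G ⊔ SimpleGraph.edge u v),
    D'.pos = D.pos → (∀ e ∈ G.edgeSet, D'.arc e = D.arc e) → ¬ D'.IsThrackle

/-- The graph has no isolated vertices. -/
def NoIsolated {V : Type*} (G : SimpleGraph V) : Prop := ∀ v, ∃ w, G.Adj v w

/-- The edge-vertex ratio: number of edges divided by the number of vertices. -/
noncomputable def ratio {V : Type*} [Fintype V] (G : SimpleGraph V) : ℚ :=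
  (G.edgeSet.ncard : ℚ) / (Fintype.card V : ℚ)

end Pool.Agent.Work.MP_2f2fa8_co
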