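import Mathlib
import Pool.Agent.Work.MP_2f2fa8_co.Data

set_option autoImplicit false
set_option maxRecDepth 100000

namespace Pool.Agent.Work.MP_2f2fa8_co

/-- labels on the two sides of a unit step -/
def sides (a b : ℤ × ℤ) : ℕ × ℕ :=
  if a.1 = b.1 then (labF (a.1 - 1) (min a.2 b.2), labF a.1 (min a.2 b.2))
  else (labF (min a.1 b.1) (a.2 - 1), labF (min a.1 b.1) a.2)

/-- the pairs of faces on the two sides of the pieces of arc `k` -/
def sideL (k : Fin 9) : List (ℕ × ℕ) := ((arcs k).zip (arcs k).tail).map fun ab => sides ab.1 ab.2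

/-- the faces `a` and `b` share a piece of arc `k` -/
def adjF (k : Fin 9) (a b : ℕ) : Prop := (a, b) ∈ sideL k ∨ (b, a) ∈ sideL k

instance (k : Fin 9) (a b : ℕ) : Decidable (adjF k a b) := by unfold adjF; infer_instance

theorem path_ok : ∀ k : Fin 9, GridPath (arcs k) := by decide +kernel

theorem nodup_ok : ∀ k : Fin 9, (arcs k).Nodup := by decide +kernel

theorem len_ok : ∀ k : Fin 9, 2 ≤ (arcs k).length := by decide +kernel

theorem freeV_ok : ∀ a : ℕ, a < 20 → ∀ b : ℕ, b < 19 → labF ((a : ℤ) - 1) b = labF a b ∨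
    ∃ k : Fin 9, onV (arcs k) a b := by decide +kernel

theorem freeH_ok : ∀ a : ℕ, a < 19 → ∀ b : ℕ, b < 20 → labF (a : ℤ) ((b : ℤ) - 1) = labF a b ∨
    ∃ k : Fin 9, onH (arcs k) a b := by decide +kernel

/-- the arc goes straight in the horizontal direction through `c` -/
def strH (l : List (ℤ × ℤ)) (c : ℤ × ℤ) : Prop :=
  onH l (c.1 - 1) c.2 ∧ onH l c.1 c.2 ∧ ¬ onV l c.1 c.2 ∧ ¬ onV l c.1 (c.2 - 1)

/-- the arc goes straight in the vertical direction through `c` -/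
def strV (l : List (ℤ × ℤ)) (c : ℤ × ℤ) : Prop :=
  onV l c.1 (c.2 - 1) ∧ onV l c.1 c.2 ∧ ¬ onH l c.1 c.2 ∧ ¬ onH l (c.1 - 1) c.2

instance (l : List (ℤ × ℤ)) (c : ℤ × ℤ) : Decidable (strH l c) := by unfold strH; infer_instance
instance (l : List (ℤ × ℤ)) (c : ℤ × ℤ) : Decidable (strV l c) := by unfold strV; infer_instance

/-- `c` is the only common point of the two lists, and the arcs cross there -/
def crossAt (l m : List (ℤ × ℤ)) (c : ℤ × ℤ) : Prop :=
  (∀ q ∈ l, q ∈ m → q = c) ∧ ((strH l c ∧ strV m c) ∨ (strH m c ∧ strV l c))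

instance (l m : List (ℤ × ℤ)) (c : ℤ × ℤ) : Decidable (crossAt l m c) := by
  unfold crossAt; infer_instance

theorem cross_ok : ∀ k l : Fin 9, k ≠ l → ∃ c ∈ arcs k, c ∈ arcs l ∧ crossAt (arcs k) (arcs l) c := by
  decide +kernel

/-- the four labels around a grid point -/
def four (c : ℤ × ℤ) : List ℕ :=
  [labF (c.1 - 1) (c.2 - 1), labF c.1 (c.2 - 1), labF (c.1 - 1) c.2, labF c.1 c.2]

theorem single_ok : ∀ k : Fin 9, ∀ c ∈ arcs k, (∀ l : Fin 9, l ≠ k → c ∉ arcs l) →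
    some c ≠ (arcs k).head? → some c ≠ (arcs k).getLast? →
    ∀ a ∈ four c, ∀ b ∈ four c, (∀ x ∈ four c, x = a ∨ x = b) → adjF k a b := by
  decide +kernel

end Pool.Agent.Work.MP_2f2fa8_co
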