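import Mathlib
import Pool.Agent.Work.MP_2f2fa8_co.Check

set_option autoImplicit false
set_option maxRecDepth 100000

namespace Pool.Agent.Work.MP_2f2fa8_co

/-- union of the masks in the list at the positions given by the bits of `m` -/
def image : List ℕ → ℕ → ℕ
  | [], _ => 0
  | x :: t, m => if m = 0 then 0 else (if m % 2 = 1 then x else 0) ||| image t (m / 2)

theorem testBit_image (b : ℕ) : ∀ (l : List ℕ) (m a : ℕ), m.testBit a = true →
    (l.getD a 0).testBit b = true → (image l m).testBit b = true := by
  intro l
  induction l with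
  | nil => intro m a _ h; simp at h
  | cons x t ih =>
    intro m a hm hb
    have hm0 : m ≠ 0 := by rintro rfl; simp at hm
    simp only [image, if_neg hm0, Nat.testBit_or, Bool.or_eq_true]
    cases a with
    | zero =>
      left
      have : m % 2 = 1 := by simpa [Nat.testBit_zero] using hm
      rw [if_pos this]
      simpa using hb
    | succ a =>
      right
      refine ih (m / 2) a ?_ ?_
      · rwa [Nat.testBit_succ] at hm
      · simpa using hb

/-- the mask stored at position `s` of the table `Z` -/
def getM (Z s : ℕ) : ℕ := (Z >>> (32 * s)) % 4294967296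

/-- the end points: the vertex `v` is the first (`v` even) or last (`v` odd) point of the arc
number `v / 2` -/
def endpt (v : Fin 18) : ℤ × ℤ :=
  if v.val % 2 = 0 then (arcs ⟨v.val / 2, by omega⟩).headD (0, 0)
  else (arcs ⟨v.val / 2, by omega⟩).getLastD (0, 0)

/-- the face that contains the vertex `v` -/
def faceOf (v : Fin 18) : ℕ := labF (endpt v).1 (endpt v).2

/-- the check of the table `Z` for the start face `f0`, arc `k1` being forbidden -/
def okTable (Z k1 f0 : ℕ) : Bool :=
  (getM Z 0).testBit f0 &&
  (List.range 512).all fun s => s.testBit k1 ||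
    (List.finRange 9).all fun k => (k.val == k1) || s.testBit k.val ||
      (let r := image (nbL k) (getM Z s)
       (r &&& getM Z (s ||| 2 ^ k.val)) == r)

theorem nb_ok : ∀ k : Fin 9, ∀ ab ∈ sideL k,
    ((nbL k).getD ab.1 0).testBit ab.2 = true ∧ ((nbL k).getD ab.2 0).testBit ab.1 = true := by
  decide +kernel

theorem table_ok : ∀ v : Fin 18, okTable (zT v) (v.val / 2) (faceOf v) = true := by
  decide +kernel

theorem final_ok : ∀ u v : Fin 18, u.val / 2 ≠ v.val / 2 →
    (getM (zT u) (511 - 2 ^ (u.val / 2) - 2 ^ (v.val / 2))).testBit (faceOf v) = false := by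
  decide +kernel

/-- the code of a set of arcs -/
def code (S : Finset (Fin 9)) : ℕ := Nat.ofBits (fun k : Fin 9 => decide (k ∈ S))

theorem testBit_code (S : Finset (Fin 9)) (k : Fin 9) : (code S).testBit k.val = decide (k ∈ S) := by
  unfold code
  rw [Nat.testBit_ofBits_lt _ _ k.isLt]

theorem code_lt (S : Finset (Fin 9)) : code S < 512 := by
  have := Nat.ofBits_lt_two_pow (fun k : Fin 9 => decide (k ∈ S))
  simpa [code] using this

theorem testBit_code_ge (S : Finset (Fin 9)) {i : ℕ} (hi : 9 ≤ i) : (code S).testBit i = false := by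
  refine Nat.testBit_eq_false_of_lt (lt_of_lt_of_le (code_lt S) ?_)
  calc (512 : ℕ) = 2 ^ 9 := by norm_num
    _ ≤ 2 ^ i := Nat.pow_le_pow_right (by norm_num) hi

theorem code_insert (S : Finset (Fin 9)) (k : Fin 9) :
    code (insert k S) = code S ||| 2 ^ k.val := by
  refine Nat.eq_of_testBit_eq fun i => ?_
  rw [Nat.testBit_or, Nat.testBit_two_pow]
  by_cases hi : i < 9
  · have h1 := testBit_code (insert k S) ⟨i, hi⟩
    have h2 := testBit_code S ⟨i, hi⟩
    simp only at h1 h2
    rw [h1, h2]
    by_cases h : k.val = i
    · have hk : (⟨i, hi⟩ : Fin 9) = k := Fin.ext h.symm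
      rw [hk]; simp [h]
    · have hk : (⟨i, hi⟩ : Fin 9) ≠ k := fun h' => h (by rw [← h'])
      simp [h, hk]
  · push Not at hi
    rw [testBit_code_ge _ hi, testBit_code_ge _ hi]
    have : k.val ≠ i := by omega
    simp [this]

theorem reach_table (v : Fin 18) {S : Finset (Fin 9)} {b : ℕ}
    (h : Reach adjF (faceOf v) S b) : (⟨v.val / 2, by omega⟩ : Fin 9) ∉ S →
    (getM (zT v) (code S)).testBit b = true := by
  have htab := table_ok v
  unfold okTable at htab
  rw [Bool.and_eq_true] at htab
  obtain ⟨h0, hall⟩ := htab
  induction h with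
  | start =>
    intro _
    have : code ∅ = 0 := by
      refine Nat.eq_of_testBit_eq fun i => ?_
      by_cases hi : i < 9
      · have h1 := testBit_code ∅ ⟨i, hi⟩
        simp only at h1
        rw [h1]; simp
      · push Not at hi
        rw [testBit_code_ge _ hi]; simp
    rw [this]; exact h0
  | @step S a b k hR hkS hadj ih =>
    intro hv
    rw [Finset.mem_insert, not_or] at hv
    have hb := ih hv.2
    rw [List.all_eq_true] at hall
    have h1 := hall (code S) (List.mem_range.2 (code_lt S))
    have hv' : (code S).testBit (v.val / 2) = false := by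
      have := testBit_code S ⟨v.val / 2, by omega⟩
      simp only at this
      rw [this]; simpa using hv.2
    rw [hv', Bool.false_or, List.all_eq_true] at h1
    have h2 := h1 k (List.mem_finRange k)
    have hk1 : (k.val == v.val / 2) = false := by
      rw [beq_eq_false_iff_ne]
      intro h
      exact hv.1 (Fin.ext h.symm)
    have hk2 : (code S).testBit k.val = false := by
      rw [testBit_code]; simpa using hkS
    rw [hk1, hk2, Bool.false_or, Bool.false_or] at h2
    have h3 : image (nbL k) (getM (zT v) (code S)) &&& getM (zT v) (code S ||| 2 ^ k.val) =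
        image (nbL k) (getM (zT v) (code S)) := by simpa using h2
    have h4 : (image (nbL k) (getM (zT v) (code S))).testBit b = true := by
      refine testBit_image b _ _ a hb ?_
      rcases hadj with h | h
      · exact (nb_ok k _ h).1
      · exact (nb_ok k _ h).2
    rw [code_insert]
    rw [← h3, Nat.testBit_and, Bool.and_eq_true] at h4
    exact h4.2

/-- No dual walk leads from the face of `u` to the face of `v` and crosses every arc that does
not end at `u` or `v` exactly once. -/
theorem not_reach (u v : Fin 18) (huv : u.val / 2 ≠ v.val / 2) :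
    ¬ Reach adjF (faceOf u)
      ((Finset.univ.erase (⟨u.val / 2, by omega⟩ : Fin 9)).erase ⟨v.val / 2, by omega⟩)
      (faceOf v) := by
  intro h
  have h1 := reach_table u h (by simp)
  have hcode : code ((Finset.univ.erase (⟨u.val / 2, by omega⟩ : Fin 9)).erase
      ⟨v.val / 2, by omega⟩) = 511 - 2 ^ (u.val / 2) - 2 ^ (v.val / 2) := by
    have key : ∀ a b : Fin 9, a ≠ b →
        code ((Finset.univ.erase a).erase b) = 511 - 2 ^ a.val - 2 ^ b.val := by decide +kernel
    exact key ⟨u.val / 2, by omega⟩ ⟨v.val / 2, by omega⟩ (fun h => huv (by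
      simpa [Fin.ext_iff] using h))
  rw [hcode, final_ok u v huv] at h1
  exact Bool.false_ne_true h1

end Pool.Agent.Work.MP_2f2fa8_co
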