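import Mathlib
import Pool.Agent.Work.MP_2f2fa8_co.ReachCheck

set_option autoImplicit false
set_option maxRecDepth 100000

open Set Filter Topology

namespace Pool.Agent.Work.MP_2f2fa8_co

theorem labF_out {i j : ℤ} (h : ¬ (0 ≤ i ∧ i < 19 ∧ 0 ≤ j ∧ j < 19)) : labF i j = 0 := by
  unfold labF; rw [if_neg h]

/-- the grid system of the drawing -/
theorem gridSys : GridSys (Fin 9) arcs labF adjF where
  path := path_ok
  nodup := nodup_ok
  len := len_ok
  freeV := by
    intro i j h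
    by_cases hij : 0 ≤ i ∧ i < 20 ∧ 0 ≤ j ∧ j < 19
    · obtain ⟨h1, h2, h3, h4⟩ := hij
      obtain ⟨a, rfl⟩ := Int.eq_ofNat_of_zero_le h1
      obtain ⟨b, rfl⟩ := Int.eq_ofNat_of_zero_le h3
      rcases freeV_ok a (by omega) b (by omega) with h' | ⟨k, hk⟩
      · exact h'
      · exact absurd hk (h k)
    · rw [labF_out (by omega), labF_out (by omega)]
  freeH := by
    intro i j h
    by_cases hij : 0 ≤ i ∧ i < 19 ∧ 0 ≤ j ∧ j < 20
    · obtain ⟨h1, h2, h3, h4⟩ := hij
      obtain ⟨a, rfl⟩ := Int.eq_ofNat_of_zero_le h1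
      obtain ⟨b, rfl⟩ := Int.eq_ofNat_of_zero_le h3
      rcases freeH_ok a (by omega) b (by omega) with h' | ⟨k, hk⟩
      · exact h'
      · exact absurd hk (h k)
    · rw [labF_out (by omega), labF_out (by omega)]
  symm := fun k a b h => h.symm
  adjV := by
    rintro k i j (h | h)
    · left
      refine List.mem_map.2 ⟨_, h, ?_⟩
      simp [sides]
    · left
      refine List.mem_map.2 ⟨_, h, ?_⟩
      simp [sides]
  adjH := by
    rintro k i j (h | h)
    · left
      refine List.mem_map.2 ⟨_, h, ?_⟩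
      simp [sides]
    · left
      refine List.mem_map.2 ⟨_, h, ?_⟩
      simp [sides]
  cross := by
    intro k l hkl
    obtain ⟨c, hc1, hc2, hc3, h | h⟩ := cross_ok k l hkl
    · obtain ⟨⟨a1, a2, a3, a4⟩, b1, b2, b3, b4⟩ := h
      exact ⟨c, hc1, hc2, hc3, Or.inl ⟨a1, a2, a3, a4, b1, b2, b3, b4⟩⟩
    · obtain ⟨⟨a1, a2, a3, a4⟩, b1, b2, b3, b4⟩ := h
      exact ⟨c, hc1, hc2, hc3, Or.inr ⟨a1, a2, a3, a4, b1, b2, b3, b4⟩⟩
  single := by
    intro k c hc hl hh ht a b x1 x2 x3 x4 ya yb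
    refine single_ok k c hc hl hh ht a ?_ b ?_ ?_
    · simpa [four] using ya
    · simpa [four] using yb
    · intro x hx
      simp only [four, List.mem_cons, List.not_mem_nil, or_false] at hx
      rcases hx with rfl | rfl | rfl | rfl
      · exact x1
      · exact x2
      · exact x3
      · exact x4

/-- translation that moves the grid point `c` to the origin -/
noncomputable def shift (c : ℤ × ℤ) : OpenPartialHomeomorph Plane Plane :=
  (Homeomorph.addRight (-toP c)).toOpenPartialHomeomorph.restrOpen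
    {q : Plane | ((c.1 : ℝ) - 1 < q.1 ∧ q.1 < c.1 + 1) ∧ ((c.2 : ℝ) - 1 < q.2 ∧ q.2 < c.2 + 1)}
    (by
      refine IsOpen.inter (IsOpen.inter ?_ ?_) (IsOpen.inter ?_ ?_)
      · exact isOpen_lt continuous_const continuous_fst
      · exact isOpen_lt continuous_fst continuous_const
      · exact isOpen_lt continuous_const continuous_snd
      · exact isOpen_lt continuous_snd continuous_const)

theorem shift_apply (c : ℤ × ℤ) (q : Plane) : shift c q = q + -toP c := rfl

theorem mem_shift_source (c : ℤ × ℤ) (q : Plane) : q ∈ (shift c).source ↔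
    ((c.1 : ℝ) - 1 < q.1 ∧ q.1 < c.1 + 1) ∧ ((c.2 : ℝ) - 1 < q.2 ∧ q.2 < c.2 + 1) := by
  simp [shift]

theorem crossing_HV {A B : Set Plane} {c : ℤ × ℤ}
    (hA : ∀ q : Plane, ((c.1 : ℝ) - 1 < q.1 ∧ q.1 < c.1 + 1) ∧
      ((c.2 : ℝ) - 1 < q.2 ∧ q.2 < c.2 + 1) → (q ∈ A ↔ q.2 = c.2))
    (hB : ∀ q : Plane, ((c.1 : ℝ) - 1 < q.1 ∧ q.1 < c.1 + 1) ∧
      ((c.2 : ℝ) - 1 < q.2 ∧ q.2 < c.2 + 1) → (q ∈ B ↔ q.1 = c.1)) :
    ProperCrossing A B (toP c) := by
  refine ⟨shift c, ?_, ?_, ?_, ?_⟩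
  · rw [mem_shift_source]; simp [toP]
  · rw [shift_apply]; simp
  · intro q hq
    rw [mem_shift_source] at hq
    rw [hA q hq, shift_apply]
    simp only [Prod.snd_add, Prod.snd_neg, toP]
    constructor <;> intro h <;> linarith
  · intro q hq
    rw [mem_shift_source] at hq
    rw [hB q hq, shift_apply]
    simp only [Prod.fst_add, Prod.fst_neg, toP]
    constructor <;> intro h <;> linarith

theorem ProperCrossing.symm {A B : Set Plane} {p : Plane} (h : ProperCrossing A B p) :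
    ProperCrossing B A p := by
  obtain ⟨φ, h1, h2, h3, h4⟩ := h
  refine ⟨φ.trans (Homeomorph.prodComm ℝ ℝ).toOpenPartialHomeomorph, ?_, ?_, ?_, ?_⟩
  · simpa using h1
  · simp [h2]
  · intro x hx
    have hx' : x ∈ φ.source := by simpa using hx
    rw [h4 x hx']; simp
  · intro x hx
    have hx' : x ∈ φ.source := by simpa using hx
    rw [h3 x hx']; simp

/-- two different arcs meet in one point and cross there -/
theorem arcs_cross (k l : Fin 9) (hkl : k ≠ l) :
    ∃ p, polySet (arcs k) ∩ polySet (arcs l) = {p} ∧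
      ProperCrossing (polySet (arcs k)) (polySet (arcs l)) p := by
  obtain ⟨c, hc1, hc2, hc3, h | h⟩ := cross_ok k l hkl
  · refine ⟨toP c, inter_eq gridSys hc1 hc2 hc3, crossing_HV ?_ ?_⟩
    · intro q hq
      exact shapeH gridSys h.1 hq.1.1 hq.1.2 hq.2.1 hq.2.2
    · intro q hq
      exact shapeV gridSys h.2 hq.1.1 hq.1.2 hq.2.1 hq.2.2
  · refine ⟨toP c, inter_eq gridSys hc1 hc2 hc3, (crossing_HV ?_ ?_).symm⟩
    · intro q hq
      exact shapeH gridSys h.1 hq.1.1 hq.1.2 hq.2.1 hq.2.2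
    · intro q hq
      exact shapeV gridSys h.2 hq.1.1 hq.1.2 hq.2.1 hq.2.2

/-- the graph: a perfect matching on 18 vertices -/
def M9 : SimpleGraph (Fin 18) where
  Adj u v := u ≠ v ∧ u.val / 2 = v.val / 2
  symm := ⟨fun _ _ h => ⟨h.1.symm, h.2.symm⟩⟩
  loopless := ⟨fun _ h => h.1 rfl⟩

instance : DecidableRel M9.Adj := fun u v => by unfold M9; infer_instance

/-- first vertex of the arc `k` -/
def vA (k : Fin 9) : Fin 18 := ⟨2 * k.val, by omega⟩

/-- last vertex of the arc `k` -/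
def vB (k : Fin 9) : Fin 18 := ⟨2 * k.val + 1, by omega⟩

theorem toP_injective : Function.Injective toP := by
  intro a b h
  simp only [toP, Prod.mk.injEq, Int.cast_inj] at h
  exact Prod.ext h.1 h.2

theorem endpt_inj : ∀ u v : Fin 18, endpt u = endpt v → u = v := by decide +kernel

theorem endpt_mem : ∀ (k : Fin 9) (w : Fin 18), endpt w ∈ arcs k → w = vA k ∨ w = vB k := by
  decide +kernel

theorem endpt_A : ∀ k : Fin 9, (arcs k).head? = some (endpt (vA k)) := by decide +kernel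

theorem endpt_B : ∀ k : Fin 9, (arcs k).getLast? = some (endpt (vB k)) := by decide +kernel

theorem endpt_four : ∀ v : Fin 18, ∀ x ∈ four (endpt v), x = faceOf v := by decide +kernel

theorem edge_cases {u v : Fin 18} (h : M9.Adj u v) :
    ∃ k : Fin 9, (u = vA k ∧ v = vB k) ∨ (u = vB k ∧ v = vA k) := by
  obtain ⟨h1, h2⟩ := h
  refine ⟨⟨u.val / 2, by omega⟩, ?_⟩
  have h1' : u.val ≠ v.val := fun h => h1 (Fin.ext h)
  rcases Nat.mod_two_eq_zero_or_one u.val with h3 | h3
  · left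
    constructor <;> apply Fin.ext <;> simp only [vA, vB] <;> omega
  · right
    constructor <;> apply Fin.ext <;> simp only [vA, vB] <;> omega

theorem sAB_inj {k l : Fin 9} (h : s(vA k, vB k) = s(vA l, vB l)) : k = l := by
  rw [Sym2.eq_iff] at h
  rcases h with ⟨h, _⟩ | ⟨h, _⟩
  · have := congrArg Fin.val h
    simp only [vA] at this
    exact Fin.ext (by omega)
  · have := congrArg Fin.val h
    simp only [vA, vB] at this
    omega

theorem adj_AB (k : Fin 9) : M9.Adj (vA k) (vB k) := by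
  refine ⟨fun h => ?_, ?_⟩
  · have := congrArg Fin.val h
    simp only [vA, vB] at this
    omega
  · simp only [vA, vB]; omega

/-- the set drawn for an edge -/
def arcSet (e : Sym2 (Fin 18)) : Set Plane :=
  {q | ∃ k : Fin 9, e = s(vA k, vB k) ∧ q ∈ polySet (arcs k)}

theorem arcSet_eq (k : Fin 9) : arcSet s(vA k, vB k) = polySet (arcs k) := by
  ext q
  constructor
  · rintro ⟨l, h, hq⟩
    rw [sAB_inj h]; exact hq
  · intro hq
    exact ⟨k, rfl, hq⟩

theorem jordan_AB (k : Fin 9) :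
    IsJordanArc (polySet (arcs k)) (toP (endpt (vA k))) (toP (endpt (vB k))) := by
  have h := polySet_jordan (arcs k) (path_ok k) (nodup_ok k) (len_ok k)
  have hne : arcs k ≠ [] := by
    intro h; have := len_ok k; rw [h] at this; simp at this
  have h1 : (arcs k).head hne = endpt (vA k) := by
    have := endpt_A k
    rw [List.head?_eq_some_head hne] at this
    exact Option.some.inj this
  have h2 : (arcs k).getLast hne = endpt (vB k) := by
    have := endpt_B k
    rw [List.getLast?_eq_some_getLast hne] at this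
    exact Option.some.inj this
  rw [h1, h2] at h
  exact h

theorem IsJordanArc.symm {A : Set Plane} {p q : Plane} (h : IsJordanArc A p q) :
    IsJordanArc A q p := by
  obtain ⟨γ, hc, hi, h0, h1, him⟩ := h
  have hm : ∀ t ∈ Icc (0 : ℝ) 1, 1 - t ∈ Icc (0 : ℝ) 1 := fun t ht =>
    ⟨by linarith [ht.2], by linarith [ht.1]⟩
  refine ⟨fun t => γ (1 - t), ?_, ?_, by simpa using h1, by simpa using h0, ?_⟩
  · exact hc.comp (by fun_prop) hm
  · intro s hs t ht h
    have := hi (hm s hs) (hm t ht) h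
    linarith
  · rw [← him]
    ext z
    constructor
    · rintro ⟨t, ht, rfl⟩
      exact ⟨_, hm t ht, rfl⟩
    · rintro ⟨t, ht, rfl⟩
      exact ⟨1 - t, hm t ht, by simp⟩

theorem mem_arc_grid {k : Fin 9} {w : Fin 18} (h : toP (endpt w) ∈ polySet (arcs k)) :
    w = vA k ∨ w = vB k :=
  endpt_mem k w ((mem_polySet_grid (path_ok k) (len_ok k) _).1 h)

/-- The drawing. -/
noncomputable def drawing : Drawing M9 where
  pos v := toP (endpt v)
  arc := arcSet
  pos_injective := fun u v h => endpt_inj u v (toP_injective h)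
  isJordanArc := by
    intro u v h
    obtain ⟨k, ⟨rfl, rfl⟩ | ⟨rfl, rfl⟩⟩ := edge_cases h
    · rw [arcSet_eq]; exact jordan_AB k
    · rw [Sym2.eq_swap, arcSet_eq]; exact (jordan_AB k).symm
  avoids := by
    intro u v w h hw
    obtain ⟨k, ⟨rfl, rfl⟩ | ⟨rfl, rfl⟩⟩ := edge_cases h
    · rw [arcSet_eq] at hw; exact mem_arc_grid hw
    · rw [Sym2.eq_swap, arcSet_eq] at hw; exact (mem_arc_grid hw).symm

theorem edge_eq {e : Sym2 (Fin 18)} (he : e ∈ M9.edgeSet) : ∃ k, e = s(vA k, vB k) := by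
  induction e with
  | _ u v =>
    rw [SimpleGraph.mem_edgeSet] at he
    obtain ⟨k, ⟨rfl, rfl⟩ | ⟨rfl, rfl⟩⟩ := edge_cases he
    · exact ⟨k, rfl⟩
    · exact ⟨k, Sym2.eq_swap⟩

theorem mem_AB {k : Fin 9} {w : Fin 18} : w ∈ s(vA k, vB k) ↔ w.val / 2 = k.val := by
  rw [Sym2.mem_iff]
  constructor
  · rintro (rfl | rfl) <;> simp only [vA, vB] <;> omega
  · intro h
    rcases Nat.mod_two_eq_zero_or_one w.val with h3 | h3
    · left; apply Fin.ext; simp only [vA]; omega
    · right; apply Fin.ext; simp only [vB]; omega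

theorem drawing_isThrackle : drawing.IsThrackle := by
  intro e he f hf hef
  obtain ⟨k, rfl⟩ := edge_eq he
  obtain ⟨l, rfl⟩ := edge_eq hf
  have hkl : k ≠ l := fun h => hef (by rw [h])
  right
  refine ⟨fun v hv hv' => ?_, ?_⟩
  · rw [mem_AB] at hv hv'
    exact hkl (Fin.ext (hv.symm.trans hv'))
  · show ∃ p, arcSet s(vA k, vB k) ∩ arcSet s(vA l, vB l) = {p} ∧
      ProperCrossing (arcSet s(vA k, vB k)) (arcSet s(vA l, vB l)) p
    rw [arcSet_eq, arcSet_eq]
    exact arcs_cross k l hkl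

theorem near_toP {a i : ℤ} (h : NearI (a : ℝ) i) : i = a ∨ i = a - 1 := by
  rcases h with h | ⟨_, h⟩ <;> rw [Int.floor_intCast] at h
  · exact Or.inl h
  · exact Or.inr h

theorem face_near (v : Fin 18) : ∀ i j, NearI (toP (endpt v)).1 i → NearI (toP (endpt v)).2 j →
    labF i j = faceOf v := by
  intro i j hi hj
  have h4 := endpt_four v
  rcases near_toP hi with rfl | rfl <;> rcases near_toP hj with rfl | rfl <;>
    refine h4 _ ?_ <;> simp [four]

theorem drawing_isMaximal : drawing.IsMaximalThrackle := by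
  refine ⟨drawing_isThrackle, ?_⟩
  intro u v huv hadj D' hpos harc hthr
  have hne : u.val / 2 ≠ v.val / 2 := fun h => hadj ⟨huv, h⟩
  set k1 : Fin 9 := ⟨u.val / 2, by omega⟩ with hk1
  set k2 : Fin 9 := ⟨v.val / 2, by omega⟩ with hk2
  have hadj' : (M9 ⊔ SimpleGraph.edge u v).Adj u v := by
    rw [SimpleGraph.sup_adj, SimpleGraph.edge_adj]
    exact Or.inr ⟨Or.inl ⟨rfl, rfl⟩, huv⟩
  have he0 : s(u, v) ∈ (M9 ⊔ SimpleGraph.edge u v).edgeSet := hadj'
  have hek : ∀ k : Fin 9, s(vA k, vB k) ∈ (M9 ⊔ SimpleGraph.edge u v).edgeSet := fun k =>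
    (SimpleGraph.mem_edgeSet _).2 (Or.inl (adj_AB k))
  have harck : ∀ k : Fin 9, D'.arc s(vA k, vB k) = polySet (arcs k) := fun k => by
    rw [harc _ (adj_AB k)]; exact arcSet_eq k
  have hposw : ∀ w, D'.pos w = toP (endpt w) := fun w => by rw [hpos]; rfl
  have hnek : ∀ k : Fin 9, s(vA k, vB k) ≠ s(u, v) := by
    intro k h
    have h1 : u ∈ s(vA k, vB k) := by rw [h]; exact Sym2.mem_mk_left _ _
    have h2 : v ∈ s(vA k, vB k) := by rw [h]; exact Sym2.mem_mk_right _ _
    rw [mem_AB] at h1 h2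
    exact hne (h1.trans h2.symm)
  obtain ⟨γ, hc, hi, h0, h1, him⟩ := D'.isJordanArc u v hadj'
  rw [hposw] at h0 h1
  -- incident arcs
  have hinc : ∀ (w : Fin 18), (w = u ∨ w = v) → ∀ k : Fin 9, w.val / 2 = k.val →
      polySet (arcs k) ∩ D'.arc s(u, v) = {toP (endpt w)} := by
    intro w hw k hwk
    have hwk' : w ∈ s(vA k, vB k) := mem_AB.2 hwk
    have hw' : w ∈ s(u, v) := Sym2.mem_iff.2 hw
    rcases hthr _ (hek k) _ he0 (hnek k) with ⟨x, hx1, hx2, hx3⟩ | ⟨h, _⟩
    · have hxw : x = w := by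
        rw [Sym2.mem_iff] at hx2
        rw [mem_AB] at hx1
        rcases hx2 with rfl | rfl <;> rcases hw with rfl | rfl
        · rfl
        · exact absurd (hx1.trans hwk.symm) hne
        · exact absurd (hwk.trans hx1.symm) hne
        · rfl
      rw [hxw, harck, hposw] at hx3
      exact hx3
    · exact absurd hw' (h w hwk')
  have H1 : ∀ t ∈ Icc (0 : ℝ) 1, γ t ∈ polySet (arcs k1) → t = 0 := by
    intro t ht h
    have hm : γ t ∈ polySet (arcs k1) ∩ D'.arc s(u, v) := ⟨h, him ▸ ⟨t, ht, rfl⟩⟩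
    rw [hinc u (Or.inl rfl) k1 rfl, mem_singleton_iff, ← h0] at hm
    exact hi ht ⟨le_rfl, zero_le_one⟩ hm
  have H2 : ∀ t ∈ Icc (0 : ℝ) 1, γ t ∈ polySet (arcs k2) → t = 1 := by
    intro t ht h
    have hm : γ t ∈ polySet (arcs k2) ∩ D'.arc s(u, v) := ⟨h, him ▸ ⟨t, ht, rfl⟩⟩
    rw [hinc v (Or.inr rfl) k2 rfl, mem_singleton_iff, ← h1] at hm
    exact hi ht ⟨zero_le_one, le_rfl⟩ hm
  have H3 : ∀ l, l ≠ k1 → l ≠ k2 → ∃ p, γ '' Icc 0 1 ∩ polySet (arcs l) = {p} ∧
      ProperCrossing (polySet (arcs l)) (γ '' Icc 0 1) p := by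
    intro l hl1 hl2
    rcases hthr _ (hek l) _ he0 (hnek l) with ⟨x, hx1, hx2, _⟩ | ⟨_, p, hp1, hp2⟩
    · exfalso
      rw [mem_AB] at hx1
      rw [Sym2.mem_iff] at hx2
      rcases hx2 with rfl | rfl
      · exact hl1 (Fin.ext hx1.symm)
      · exact hl2 (Fin.ext hx1.symm)
    · rw [harck, ← him] at hp1 hp2
      exact ⟨p, by rw [inter_comm]; exact hp1, hp2⟩
  have H4 : ∀ l, l ≠ k1 → γ 0 ∉ polySet (arcs l) := by
    intro l hl h
    rw [h0] at h
    rcases mem_arc_grid h with h | h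
    · exact hl (Fin.ext (by rw [hk1, h]; simp only [vA]; omega))
    · exact hl (Fin.ext (by rw [hk1, h]; simp only [vB]; omega))
  have H4' : ∀ l, l ≠ k2 → γ 1 ∉ polySet (arcs l) := by
    intro l hl h
    rw [h1] at h
    rcases mem_arc_grid h with h | h
    · exact hl (Fin.ext (by rw [hk2, h]; simp only [vA]; omega))
    · exact hl (Fin.ext (by rw [hk2, h]; simp only [vB]; omega))
  have H5 : ∀ l, l ≠ k1 → l ≠ k2 → ∀ c : ℤ × ℤ, toP c ∈ γ '' Icc 0 1 →
      some c ≠ (arcs l).head? ∧ some c ≠ (arcs l).getLast? := by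
    intro l hl1 hl2 c hcΓ
    rw [him] at hcΓ
    have key : ∀ w : Fin 18, w.val / 2 = l.val → c ≠ endpt w := by
      rintro w hw rfl
      rw [← hposw] at hcΓ
      rcases D'.avoids u v w hadj' hcΓ with rfl | rfl
      · exact hl1 (Fin.ext hw.symm)
      · exact hl2 (Fin.ext hw.symm)
    constructor
    · rw [endpt_A]
      intro h
      exact key (vA l) (by simp only [vA]; omega) (Option.some.inj h)
    · rw [endpt_B]
      intro h
      exact key (vB l) (by simp only [vB]; omega) (Option.some.inj h)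
  have hreach := dual_walk gridSys (k1 := k1) (k2 := k2) hc hi H1 H2 H3 H4 H4' H5
    (f0 := faceOf u) (f1 := faceOf v) (by rw [h0]; exact face_near u)
    (by rw [h1]; exact face_near v)
  exact not_reach u v hne hreach

theorem ncard_M9 : M9.edgeSet.ncard = 9 := by
  rw [Set.ncard_eq_toFinset_card']
  decide +kernel

theorem half_le_ratio {V : Type*} [Fintype V] [Nonempty V] (G : SimpleGraph V)
    (h : NoIsolated G) : (1 / 2 : ℚ) ≤ ratio G := by
  classical
  unfold ratio
  have hpos : (0 : ℚ) < Fintype.card V := by exact_mod_cast Fintype.card_pos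
  rw [le_div_iff₀ hpos]
  have h1 : ∑ v, G.degree v = 2 * G.edgeFinset.card := G.sum_degrees_eq_twice_card_edges
  have h2 : Fintype.card V ≤ ∑ v, G.degree v := by
    calc Fintype.card V = ∑ _v : V, 1 := by simp
      _ ≤ ∑ v, G.degree v := Finset.sum_le_sum fun v _ => by
        obtain ⟨w, hw⟩ := h v
        exact (G.degree_pos_iff_exists_adj v).2 ⟨w, hw⟩
  have h3 : G.edgeSet.ncard = G.edgeFinset.card := by
    rw [Set.ncard_eq_toFinset_card']; rfl
  rw [h3]
  have h4 : Fintype.card V ≤ 2 * G.edgeFinset.card := h1 ▸ h2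
  have h5 : (Fintype.card V : ℚ) ≤ 2 * G.edgeFinset.card := by exact_mod_cast h4
  linarith

end Pool.Agent.Work.MP_2f2fa8_co
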