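import Mathlib
import Pool.Agent.Work.MP_2f2fa8_co.Final

set_option autoImplicit false

open Set Filter Topology

namespace Pool.Agent.Work.MP_2f2fa8_co

theorem not_strH_strV {l : List (ℤ × ℤ)} {c : ℤ × ℤ} (h : strH l c) (h' : strV l c) : False :=
  h'.2.2.1 h.2.1

/-- no three arcs of the drawing pass through the same point -/
theorem no_triple {k l m : Fin 9} (hkl : k ≠ l) (hkm : k ≠ m) (hlm : l ≠ m) :
    polySet (arcs k) ∩ polySet (arcs l) ∩ polySet (arcs m) = ∅ := by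
  rw [Set.eq_empty_iff_forall_notMem]
  rintro p ⟨⟨hk, hl⟩, hm⟩
  obtain ⟨c, hck, hcl, hu, hor⟩ := cross_ok k l hkl
  have hp : p = toP c := by
    have h : p ∈ polySet (arcs k) ∩ polySet (arcs l) := ⟨hk, hl⟩
    rw [inter_eq gridSys hck hcl hu] at h
    exact h
  have hcm : c ∈ arcs m := (mem_polySet_grid (path_ok m) (len_ok m) c).1 (hp ▸ hm)
  obtain ⟨c', _, _, hu', hor'⟩ := cross_ok k m hkm
  obtain ⟨c'', _, _, hu'', hor''⟩ := cross_ok l m hlm
  have e1 := hu' c hck hcm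
  have e2 := hu'' c hcl hcm
  rw [← e1] at hor'
  rw [← e2] at hor''
  rcases hor with ⟨a1, a2⟩ | ⟨a1, a2⟩ <;> rcases hor' with ⟨b1, b2⟩ | ⟨b1, b2⟩ <;>
    rcases hor'' with ⟨d1, d2⟩ | ⟨d1, d2⟩
  · exact not_strH_strV d1 a2
  · exact not_strH_strV d1 b2
  · exact not_strH_strV a1 b2
  · exact not_strH_strV a1 b2
  · exact not_strH_strV b1 a2
  · exact not_strH_strV b1 a2
  · exact not_strH_strV b1 d2
  · exact not_strH_strV a1 d2

theorem main :
    ∃ (G : SimpleGraph (Fin 18)) (D : Drawing G), D.IsMaximalThrackle ∧ NoIsolated G ∧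
      ratio G = 1 / 2 ∧ ratio G < 4 / 5 ∧
      (∀ e ∈ G.edgeSet, ∀ f ∈ G.edgeSet, ∀ g ∈ G.edgeSet, e ≠ f → e ≠ g → f ≠ g →
        D.arc e ∩ D.arc f ∩ D.arc g = ∅) := by
  have hr : ratio M9 = 1 / 2 := by
    unfold ratio
    rw [ncard_M9]
    norm_num
  refine ⟨M9, drawing, drawing_isMaximal, ?_, hr, by rw [hr]; norm_num, ?_⟩
  · intro v
    rcases Nat.mod_two_eq_zero_or_one v.val with h | h
    · refine ⟨⟨v.val + 1, by omega⟩, fun h' => ?_, ?_⟩
      · have := congrArg Fin.val h'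
        simp at this
      · simp only; omega
    · refine ⟨⟨v.val - 1, by omega⟩, fun h' => ?_, ?_⟩
      · have := congrArg Fin.val h'
        simp only at this
        omega
      · simp only; omega
  · intro e he f hf g hg hef heg hfg
    obtain ⟨k, rfl⟩ := edge_eq he
    obtain ⟨l, rfl⟩ := edge_eq hf
    obtain ⟨m, rfl⟩ := edge_eq hg
    show arcSet s(vA k, vB k) ∩ arcSet s(vA l, vB l) ∩ arcSet s(vA m, vB m) = ∅
    rw [arcSet_eq, arcSet_eq, arcSet_eq]
    exact no_triple (fun h => hef (by rw [h])) (fun h => heg (by rw [h]))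
      (fun h => hfg (by rw [h]))

end Pool.Agent.Work.MP_2f2fa8_co
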