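import Mathlib
import Pool.Agent.Work.MP_2f2fa8_co.Defs

set_option autoImplicit false

open Set Filter Topology

namespace Pool.Agent.Work.MP_2f2fa8_co

theorem concat {A B : Set Plane} {p q r : Plane} (hA : IsJordanArc A p q)
    (hB : IsJordanArc B q r) (hAB : A ∩ B = {q}) : IsJordanArc (A ∪ B) p r := by
  obtain ⟨f, hfc, hfi, hf0, hf1, hfA⟩ := hA
  obtain ⟨g, hgc, hgi, hg0, hg1, hgB⟩ := hB
  set γ : ℝ → Plane := fun t => if t ≤ 1 / 2 then f (2 * t) else g (2 * t - 1) with hγ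
  have e1 : ∀ t, t ≤ 1 / 2 → γ t = f (2 * t) := fun t ht => by simp only [hγ]; rw [if_pos ht]
  have e2 : ∀ t, 1 / 2 ≤ t → γ t = g (2 * t - 1) := by
    intro t ht
    rcases ht.eq_or_lt with h | h
    · rw [e1 t h.ge, ← h]; norm_num [hf1, hg0]
    · simp only [hγ]; rw [if_neg (not_le.2 h)]
  have hI : Icc (0 : ℝ) 1 = Icc 0 (1 / 2) ∪ Icc (1 / 2) 1 :=
    (Icc_union_Icc_eq_Icc (by norm_num) (by norm_num)).symm
  have m1 : ∀ t ∈ Icc (0 : ℝ) (1 / 2), 2 * t ∈ Icc (0 : ℝ) 1 := fun t ht =>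
    ⟨by linarith [ht.1], by linarith [ht.2]⟩
  have m2 : ∀ t ∈ Icc (1 / 2 : ℝ) 1, 2 * t - 1 ∈ Icc (0 : ℝ) 1 := fun t ht =>
    ⟨by linarith [ht.1], by linarith [ht.2]⟩
  refine ⟨γ, ?_, ?_, ?_, ?_, ?_⟩
  · rw [hI]
    refine ContinuousOn.union_of_isClosed ?_ ?_ isClosed_Icc isClosed_Icc
    · refine ContinuousOn.congr (f := fun t => f (2 * t)) ?_ (fun t ht => e1 t ht.2)
      exact hfc.comp (by fun_prop) m1
    · refine ContinuousOn.congr (f := fun t => g (2 * t - 1)) ?_ (fun t ht => e2 t ht.1)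
      exact hgc.comp (by fun_prop) m2
  · have key : ∀ s ∈ Icc (0 : ℝ) 1, ∀ t ∈ Icc (0 : ℝ) 1, s ≤ t → γ s = γ t → s = t := by
      intro s hs t ht hst h
      rcases le_total t (1 / 2) with h1 | h1
      · rw [e1 s (hst.trans h1), e1 t h1] at h
        have := hfi (m1 s ⟨hs.1, hst.trans h1⟩) (m1 t ⟨ht.1, h1⟩) h
        linarith
      · rcases le_total (1 / 2) s with h2 | h2
        · rw [e2 s h2, e2 t h1] at h
          have := hgi (m2 s ⟨h2, hs.2⟩) (m2 t ⟨h1, ht.2⟩) h
          linarith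
        · rw [e1 s h2, e2 t h1] at h
          have hm : f (2 * s) ∈ A ∩ B :=
            ⟨hfA ▸ ⟨_, m1 s ⟨hs.1, h2⟩, rfl⟩, h ▸ hgB ▸ ⟨_, m2 t ⟨h1, ht.2⟩, rfl⟩⟩
          rw [hAB, mem_singleton_iff] at hm
          have h3 : f (2 * s) = f 1 := by rw [hm, hf1]
          have h4 : g (2 * t - 1) = g 0 := by rw [← h, hm, hg0]
          have h5 := hfi (m1 s ⟨hs.1, h2⟩) ⟨by norm_num, le_rfl⟩ h3
          have h6 := hgi (m2 t ⟨h1, ht.2⟩) ⟨le_rfl, by norm_num⟩ h4
          linarith
    intro s hs t ht h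
    rcases le_total s t with h1 | h1
    · exact key s hs t ht h1 h
    · exact (key t ht s hs h1 h.symm).symm
  · rw [e1 0 (by norm_num)]; simpa using hf0
  · rw [e2 1 (by norm_num)]; norm_num [hg1]
  · rw [hI, image_union]
    congr 1
    · ext z
      constructor
      · rintro ⟨t, ht, rfl⟩
        rw [e1 t ht.2, ← hfA]
        exact ⟨_, m1 t ht, rfl⟩
      · intro hz
        rw [← hfA] at hz
        obtain ⟨t, ht, rfl⟩ := hz
        refine ⟨t / 2, ⟨by linarith [ht.1], by linarith [ht.2]⟩, ?_⟩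
        rw [e1 _ (by linarith [ht.2])]
        congr 1; ring
    · ext z
      constructor
      · rintro ⟨t, ht, rfl⟩
        rw [e2 t ht.1, ← hgB]
        exact ⟨_, m2 t ht, rfl⟩
      · intro hz
        rw [← hgB] at hz
        obtain ⟨t, ht, rfl⟩ := hz
        refine ⟨(t + 1) / 2, ⟨by linarith [ht.1], by linarith [ht.2]⟩, ?_⟩
        rw [e2 _ (by linarith [ht.1])]
        congr 1; ring

theorem IsJordanArc.isClosed {A : Set Plane} {p q : Plane} (h : IsJordanArc A p q) :
    IsClosed A := by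
  obtain ⟨f, hfc, _, _, _, rfl⟩ := h
  exact (isCompact_Icc.image_of_continuousOn hfc).isClosed

/-- the point of the plane that belongs to a grid point -/
def toP (a : ℤ × ℤ) : Plane := ((a.1 : ℝ), (a.2 : ℝ))

/-- the straight segment between two grid points -/
def useg (a b : ℤ × ℤ) : Set Plane :=
  {p | ∃ t ∈ Icc (0 : ℝ) 1, p = ((a.1 : ℝ) + t * ((b.1 : ℝ) - a.1), (a.2 : ℝ) + t * ((b.2 : ℝ) - a.2))}

theorem useg_jordan {a b : ℤ × ℤ} (hab : a ≠ b) : IsJordanArc (useg a b) (toP a) (toP b) := by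
  refine ⟨fun t => ((a.1 : ℝ) + t * ((b.1 : ℝ) - a.1), (a.2 : ℝ) + t * ((b.2 : ℝ) - a.2)),
    by fun_prop, ?_, ?_, ?_, ?_⟩
  · intro s _ t _ h
    simp only [Prod.mk.injEq] at h
    obtain ⟨h1, h2⟩ := h
    have h1' : (s - t) * ((b.1 : ℝ) - a.1) = 0 := by linarith
    have h2' : (s - t) * ((b.2 : ℝ) - a.2) = 0 := by linarith
    rcases mul_eq_zero.1 h1' with h | h
    · linarith
    rcases mul_eq_zero.1 h2' with h' | h'
    · linarith
    exfalso
    apply hab
    refine Prod.ext ?_ ?_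
    · exact_mod_cast (sub_eq_zero.1 h).symm
    · exact_mod_cast (sub_eq_zero.1 h').symm
  · simp [toP]
  · simp [toP]
  · ext p
    constructor
    · rintro ⟨t, ht, rfl⟩
      exact ⟨t, ht, rfl⟩
    · rintro ⟨t, ht, rfl⟩
      exact ⟨t, ht, rfl⟩

/-- the polygonal set that belongs to a list of grid points -/
def polySet (l : List (ℤ × ℤ)) : Set Plane := {p | ∃ ab ∈ l.zip l.tail, p ∈ useg ab.1 ab.2}

/-- `a` and `b` are neighbours in the grid -/
def Step (a b : ℤ × ℤ) : Prop :=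
  (a.2 = b.2 ∧ (b.1 = a.1 + 1 ∨ a.1 = b.1 + 1)) ∨ (a.1 = b.1 ∧ (b.2 = a.2 + 1 ∨ a.2 = b.2 + 1))

instance (a b : ℤ × ℤ) : Decidable (Step a b) := by unfold Step; infer_instance

theorem Step.ne {a b : ℤ × ℤ} (h : Step a b) : a ≠ b := by
  rintro rfl
  rcases h with ⟨_, h | h⟩ | ⟨_, h | h⟩ <;> omega

/-- integral points of a unit segment are its end points -/
theorem useg_int {a b : ℤ × ℤ} (h : Step a b) {c : ℤ × ℤ} (hc : toP c ∈ useg a b) :
    c = a ∨ c = b := by
  obtain ⟨t, ht, hct⟩ := hc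
  simp only [toP, Prod.mk.injEq] at hct
  obtain ⟨h1, h2⟩ := hct
  rcases h with ⟨hy, hx⟩ | ⟨hx, hy⟩
  · rw [← hy] at h2
    have h2' : c.2 = a.2 := by
      have : (c.2 : ℝ) = a.2 := by rw [h2]; ring
      exact_mod_cast this
    rcases hx with hx | hx
    · rw [hx] at h1
      push_cast at h1
      have h3 : (a.1 : ℝ) ≤ c.1 := by rw [h1]; nlinarith [ht.1]
      have h4 : (c.1 : ℝ) ≤ a.1 + 1 := by rw [h1]; nlinarith [ht.2]
      have h3' : a.1 ≤ c.1 := by exact_mod_cast h3
      have h4' : c.1 ≤ a.1 + 1 := by exact_mod_cast h4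
      rcases eq_or_lt_of_le h3' with h5 | h5
      · left; exact Prod.ext h5.symm h2'
      · right; exact Prod.ext (by omega) (by omega)
    · have hx' : (a.1 : ℝ) = b.1 + 1 := by exact_mod_cast hx
      have h3 : (b.1 : ℝ) ≤ c.1 := by rw [h1]; nlinarith [ht.1, ht.2]
      have h4 : (c.1 : ℝ) ≤ b.1 + 1 := by rw [h1]; nlinarith [ht.1, ht.2]
      have h3' : b.1 ≤ c.1 := by exact_mod_cast h3
      have h4' : c.1 ≤ b.1 + 1 := by exact_mod_cast h4
      rcases eq_or_lt_of_le h3' with h5 | h5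
      · right; exact Prod.ext h5.symm (by omega)
      · left; exact Prod.ext (by omega) h2'
  · rw [← hx] at h1
    have h1' : c.1 = a.1 := by
      have : (c.1 : ℝ) = a.1 := by rw [h1]; ring
      exact_mod_cast this
    rcases hy with hy | hy
    · rw [hy] at h2
      push_cast at h2
      have h3 : (a.2 : ℝ) ≤ c.2 := by rw [h2]; nlinarith [ht.1]
      have h4 : (c.2 : ℝ) ≤ a.2 + 1 := by rw [h2]; nlinarith [ht.2]
      have h3' : a.2 ≤ c.2 := by exact_mod_cast h3
      have h4' : c.2 ≤ a.2 + 1 := by exact_mod_cast h4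
      rcases eq_or_lt_of_le h3' with h5 | h5
      · left; exact Prod.ext h1' h5.symm
      · right; exact Prod.ext (by omega) (by omega)
    · have hy' : (a.2 : ℝ) = b.2 + 1 := by exact_mod_cast hy
      have h3 : (b.2 : ℝ) ≤ c.2 := by rw [h2]; nlinarith [ht.1, ht.2]
      have h4 : (c.2 : ℝ) ≤ b.2 + 1 := by rw [h2]; nlinarith [ht.1, ht.2]
      have h3' : b.2 ≤ c.2 := by exact_mod_cast h3
      have h4' : c.2 ≤ b.2 + 1 := by exact_mod_cast h4
      rcases eq_or_lt_of_le h3' with h5 | h5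
      · right; exact Prod.ext (by omega) h5.symm
      · left; exact Prod.ext h1' (by omega)

theorem useg_comm (a b : ℤ × ℤ) : useg a b = useg b a := by
  have : ∀ a b : ℤ × ℤ, useg a b ⊆ useg b a := by
    rintro a b p ⟨t, ht, rfl⟩
    refine ⟨1 - t, ⟨by linarith [ht.2], by linarith [ht.1]⟩, ?_⟩
    refine Prod.ext ?_ ?_ <;> simp only <;> ring
  exact Subset.antisymm (this a b) (this b a)

/-- description of a horizontal unit segment -/
theorem mem_useg_h {i j : ℤ} {p : Plane} :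
    p ∈ useg (i, j) (i + 1, j) ↔ p.2 = j ∧ (i : ℝ) ≤ p.1 ∧ p.1 ≤ i + 1 := by
  constructor
  · rintro ⟨t, ht, rfl⟩
    refine ⟨by simp, ?_, ?_⟩ <;> push_cast <;> nlinarith [ht.1, ht.2]
  · rintro ⟨h1, h2, h3⟩
    refine ⟨p.1 - i, ⟨by linarith, by linarith⟩, ?_⟩
    refine Prod.ext ?_ ?_
    · push_cast; ring
    · simp [h1]

/-- description of a vertical unit segment -/
theorem mem_useg_v {i j : ℤ} {p : Plane} :
    p ∈ useg (i, j) (i, j + 1) ↔ p.1 = i ∧ (j : ℝ) ≤ p.2 ∧ p.2 ≤ j + 1 := by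
  constructor
  · rintro ⟨t, ht, rfl⟩
    refine ⟨by simp, ?_, ?_⟩ <;> push_cast <;> nlinarith [ht.1, ht.2]
  · rintro ⟨h1, h2, h3⟩
    refine ⟨p.2 - j, ⟨by linarith, by linarith⟩, ?_⟩
    refine Prod.ext ?_ ?_
    · simp [h1]
    · push_cast; ring

/-- the horizontal unit segment from `(i,j)` to `(i+1,j)` is a piece of the list -/
def onH (l : List (ℤ × ℤ)) (i j : ℤ) : Prop :=
  ((i, j), (i + 1, j)) ∈ l.zip l.tail ∨ ((i + 1, j), (i, j)) ∈ l.zip l.tail

/-- the vertical unit segment from `(i,j)` to `(i,j+1)` is a piece of the list -/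
def onV (l : List (ℤ × ℤ)) (i j : ℤ) : Prop :=
  ((i, j), (i, j + 1)) ∈ l.zip l.tail ∨ ((i, j + 1), (i, j)) ∈ l.zip l.tail

instance (l : List (ℤ × ℤ)) (i j : ℤ) : Decidable (onH l i j) := by unfold onH; infer_instance
instance (l : List (ℤ × ℤ)) (i j : ℤ) : Decidable (onV l i j) := by unfold onV; infer_instance

/-- all steps of the list are steps in the grid -/
def GridPath (l : List (ℤ × ℤ)) : Prop := ∀ ab ∈ l.zip l.tail, Step ab.1 ab.2

instance (l : List (ℤ × ℤ)) : Decidable (GridPath l) := by unfold GridPath; infer_instance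

theorem mem_polySet {l : List (ℤ × ℤ)} (hl : GridPath l) (p : Plane) :
    p ∈ polySet l ↔ (∃ i j : ℤ, onH l i j ∧ p.2 = j ∧ (i : ℝ) ≤ p.1 ∧ p.1 ≤ i + 1) ∨
      (∃ i j : ℤ, onV l i j ∧ p.1 = i ∧ (j : ℝ) ≤ p.2 ∧ p.2 ≤ j + 1) := by
  constructor
  · rintro ⟨⟨⟨a1, a2⟩, ⟨b1, b2⟩⟩, hab, hp⟩
    have hs := hl _ hab
    simp only [Step] at hs
    simp only at hp
    rcases hs with ⟨rfl, rfl | rfl⟩ | ⟨rfl, rfl | rfl⟩
    · exact Or.inl ⟨a1, a2, Or.inl hab, mem_useg_h.1 hp⟩
    · rw [useg_comm] at hp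
      exact Or.inl ⟨b1, a2, Or.inr hab, mem_useg_h.1 hp⟩
    · exact Or.inr ⟨a1, a2, Or.inl hab, mem_useg_v.1 hp⟩
    · rw [useg_comm] at hp
      exact Or.inr ⟨a1, b2, Or.inr hab, mem_useg_v.1 hp⟩
  · rintro (⟨i, j, h | h, hp⟩ | ⟨i, j, h | h, hp⟩)
    · exact ⟨_, h, mem_useg_h.2 hp⟩
    · refine ⟨_, h, ?_⟩
      rw [useg_comm]
      exact mem_useg_h.2 hp
    · exact ⟨_, h, mem_useg_v.2 hp⟩
    · refine ⟨_, h, ?_⟩
      rw [useg_comm]
      exact mem_useg_v.2 hp

/-- points in the interior of a cell are on no grid path -/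
theorem notMem_polySet_cell {l : List (ℤ × ℤ)} (hl : GridPath l) {p : Plane}
    (h1 : ∀ i : ℤ, p.1 ≠ i) (h2 : ∀ j : ℤ, p.2 ≠ j) : p ∉ polySet l := by
  rw [mem_polySet hl]
  rintro (⟨i, j, _, h, _⟩ | ⟨i, j, _, h, _⟩)
  · exact h2 j h
  · exact h1 i h

theorem mem_polySet_hor {l : List (ℤ × ℤ)} (hl : GridPath l) {p : Plane} {i j : ℤ}
    (h1 : (i : ℝ) < p.1) (h1' : p.1 < i + 1) (h2 : p.2 = j) : p ∈ polySet l ↔ onH l i j := by
  rw [mem_polySet hl]
  constructor
  · rintro (⟨i', j', h, h3, h4, h5⟩ | ⟨i', j', h, h3, _, _⟩)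
    · have e1 : j' = j := by exact_mod_cast h3.symm.trans h2
      have e2 : i' = i := by
        have a1 : (i' : ℝ) < i + 1 := lt_of_le_of_lt h4 h1'
        have a2 : (i : ℝ) < i' + 1 := lt_of_lt_of_le h1 h5
        have a1' : i' < i + 1 := by exact_mod_cast a1
        have a2' : i < i' + 1 := by exact_mod_cast a2
        omega
      rw [← e1, ← e2]; exact h
    · exfalso
      rw [h3] at h1 h1'
      have a1 : i < i' := by exact_mod_cast h1
      have a2 : i' < i + 1 := by exact_mod_cast h1'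
      omega
  · intro h
    exact Or.inl ⟨i, j, h, h2, h1.le, h1'.le⟩

theorem mem_polySet_ver {l : List (ℤ × ℤ)} (hl : GridPath l) {p : Plane} {i j : ℤ}
    (h1 : (j : ℝ) < p.2) (h1' : p.2 < j + 1) (h2 : p.1 = i) : p ∈ polySet l ↔ onV l i j := by
  rw [mem_polySet hl]
  constructor
  · rintro (⟨i', j', h, h3, _, _⟩ | ⟨i', j', h, h3, h4, h5⟩)
    · exfalso
      rw [h3] at h1 h1'
      have a1 : j < j' := by exact_mod_cast h1
      have a2 : j' < j + 1 := by exact_mod_cast h1'
      omega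
    · have e1 : i' = i := by exact_mod_cast h3.symm.trans h2
      have e2 : j' = j := by
        have a1 : (j' : ℝ) < j + 1 := lt_of_le_of_lt h4 h1'
        have a2 : (j : ℝ) < j' + 1 := lt_of_lt_of_le h1 h5
        have a1' : j' < j + 1 := by exact_mod_cast a1
        have a2' : j < j' + 1 := by exact_mod_cast a2
        omega
      rw [← e1, ← e2]; exact h
  · intro h
    exact Or.inr ⟨i, j, h, h2, h1.le, h1'.le⟩

theorem left_mem_useg (a b : ℤ × ℤ) : toP a ∈ useg a b :=
  ⟨0, ⟨le_rfl, by norm_num⟩, by simp [toP]⟩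

theorem right_mem_useg (a b : ℤ × ℤ) : toP b ∈ useg a b :=
  ⟨1, ⟨by norm_num, le_rfl⟩, by simp [toP]⟩

theorem mem_of_zip_tail {l : List (ℤ × ℤ)} {a b : ℤ × ℤ} (h : (a, b) ∈ l.zip l.tail) :
    a ∈ l ∧ b ∈ l :=
  ⟨(List.of_mem_zip h).1, List.mem_of_mem_tail (List.of_mem_zip h).2⟩

theorem exists_pair {l : List (ℤ × ℤ)} (hl : 2 ≤ l.length) {c : ℤ × ℤ} (hc : c ∈ l) :
    ∃ ab ∈ l.zip l.tail, c = ab.1 ∨ c = ab.2 := by
  induction l with
  | nil => simp at hc
  | cons a t ih =>
    cases t with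
    | nil => simp at hl
    | cons b t =>
      simp only [List.tail_cons, List.zip_cons_cons]
      rcases List.mem_cons.1 hc with rfl | hc
      · exact ⟨(c, b), List.mem_cons_self, Or.inl rfl⟩
      · cases t with
        | nil =>
          simp only [List.mem_singleton] at hc
          subst hc
          exact ⟨(a, c), List.mem_cons_self, Or.inr rfl⟩
        | cons d t =>
          obtain ⟨ab, hab, h⟩ := ih (by simp) hc
          exact ⟨ab, List.mem_cons_of_mem _ (by simpa using hab), h⟩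

theorem mem_polySet_grid {l : List (ℤ × ℤ)} (hl : GridPath l) (h2 : 2 ≤ l.length)
    (c : ℤ × ℤ) : toP c ∈ polySet l ↔ c ∈ l := by
  constructor
  · rintro ⟨⟨a, b⟩, hab, hp⟩
    rcases useg_int (hl _ hab) hp with rfl | rfl
    · exact (mem_of_zip_tail hab).1
    · exact (mem_of_zip_tail hab).2
  · intro hc
    obtain ⟨ab, hab, h | h⟩ := exists_pair h2 hc
    · exact ⟨ab, hab, h ▸ left_mem_useg _ _⟩
    · exact ⟨ab, hab, h ▸ right_mem_useg _ _⟩

/-- A grid path without repetitions is a Jordan arc. -/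
theorem polySet_jordan : ∀ (l : List (ℤ × ℤ)), GridPath l → l.Nodup → (h2 : 2 ≤ l.length) →
    IsJordanArc (polySet l) (toP (l.head (by intro h; simp [h] at h2)))
      (toP (l.getLast (by intro h; simp [h] at h2)))
  | [], _, _, h2 => by simp at h2
  | [a], _, _, h2 => by simp at h2
  | [a, b], hl, hn, _ => by
    have : polySet [a, b] = useg a b := by
      ext p; simp [polySet]
    rw [this]
    have hab : a ≠ b := by
      have := hl (a, b) (by simp)
      exact this.ne
    simpa using useg_jordan hab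
  | a :: b :: c :: t, hl, hn, _ => by
    have hl' : GridPath (b :: c :: t) := fun ab hab => hl ab (by
      simp only [List.tail_cons, List.zip_cons_cons] at hab ⊢
      exact List.mem_cons_of_mem _ hab)
    have hn' : (b :: c :: t).Nodup := (List.nodup_cons.1 hn).2
    have ha : a ∉ b :: c :: t := (List.nodup_cons.1 hn).1
    have ih := polySet_jordan (b :: c :: t) hl' hn' (by simp)
    have hab : Step a b := hl (a, b) (by simp)
    have hset : polySet (a :: b :: c :: t) = useg a b ∪ polySet (b :: c :: t) := by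
      ext p
      simp [polySet]
    rw [hset]
    have hlast : (a :: b :: c :: t).getLast (by simp) = (b :: c :: t).getLast (by simp) := by
      simp
    have := concat (useg_jordan hab.ne) ih ?_
    · simpa using this
    · ext p
      constructor
      · rintro ⟨hp1, hp2⟩
        rw [mem_singleton_iff]
        -- `p` is a grid point or an inner point of the unit segment
        by_contra hne
        have hpa : p ≠ toP a := by
          rintro rfl
          exact ha ((mem_polySet_grid hl' (by simp) a).1 hp2)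
        -- inner point
        have hmem : (a, b) ∈ (b :: c :: t).zip (b :: c :: t).tail ∨
            (b, a) ∈ (b :: c :: t).zip (b :: c :: t).tail := by
          obtain ⟨a1, a2⟩ := a
          obtain ⟨b1, b2⟩ := b
          simp only [Step] at hab
          rcases hab with ⟨rfl, rfl | rfl⟩ | ⟨rfl, rfl | rfl⟩
          · obtain ⟨e1, e2, e3⟩ := mem_useg_h.1 hp1
            have s1 : (a1 : ℝ) < p.1 := lt_of_le_of_ne e2 fun h => hpa (Prod.ext h.symm e1)
            have s2 : p.1 < a1 + 1 := lt_of_le_of_ne e3 fun h =>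
              hne (Prod.ext (by simpa [toP] using h) (by simpa [toP] using e1))
            exact (mem_polySet_hor hl' s1 s2 e1).1 hp2
          · rw [useg_comm] at hp1
            obtain ⟨e1, e2, e3⟩ := mem_useg_h.1 hp1
            have s1 : (b1 : ℝ) < p.1 := lt_of_le_of_ne e2 fun h => hne (Prod.ext h.symm e1)
            have s2 : p.1 < b1 + 1 := lt_of_le_of_ne e3 fun h =>
              hpa (Prod.ext (by simpa [toP] using h) (by simpa [toP] using e1))
            exact ((mem_polySet_hor hl' s1 s2 e1).1 hp2).symm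
          · obtain ⟨e1, e2, e3⟩ := mem_useg_v.1 hp1
            have s1 : (a2 : ℝ) < p.2 := lt_of_le_of_ne e2 fun h => hpa (Prod.ext e1 h.symm)
            have s2 : p.2 < a2 + 1 := lt_of_le_of_ne e3 fun h =>
              hne (Prod.ext (by simpa [toP] using e1) (by simpa [toP] using h))
            exact (mem_polySet_ver hl' s1 s2 e1).1 hp2
          · rw [useg_comm] at hp1
            obtain ⟨e1, e2, e3⟩ := mem_useg_v.1 hp1
            have s1 : (b2 : ℝ) < p.2 := lt_of_le_of_ne e2 fun h => hne (Prod.ext e1 h.symm)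
            have s2 : p.2 < b2 + 1 := lt_of_le_of_ne e3 fun h =>
              hpa (Prod.ext (by simpa [toP] using e1) (by simpa [toP] using h))
            exact ((mem_polySet_ver hl' s1 s2 e1).1 hp2).symm
        rcases hmem with h | h
        · exact ha (mem_of_zip_tail h).1
        · exact ha (mem_of_zip_tail h).2
      · rintro rfl
        refine ⟨right_mem_useg _ _, ?_⟩
        exact (mem_polySet_grid hl' (by simp) b).2 (by simp)

end Pool.Agent.Work.MP_2f2fa8_co
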