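import Mathlib
import Pool.Agent.Work.MP_2f2fa8_co.Defs

set_option autoImplicit false

open Set Filter Topology

namespace Pool.Agent.Work.MP_2f2fa8_co

/-- Crossing lemma.  At a proper crossing of `A` and the arc `γ`, a function that is constant on
connected sets off `A` has a value before and a value after the crossing, and near the crossing
point it only takes these two values off `A`. -/
theorem side_lemma {α : Type*} {A Γ : Set Plane} {p : Plane} (h : ProperCrossing A Γ p)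
    {γ : ℝ → Plane} (hc : ContinuousOn γ (Icc 0 1)) (hi : InjOn γ (Icc 0 1))
    (him : γ '' Icc 0 1 = Γ) {t0 : ℝ} (ht0 : t0 ∈ Ioo (0 : ℝ) 1) (hp : γ t0 = p)
    (g : Plane → α) {N : Set Plane} (hN : N ∈ 𝓝 p)
    (hg : ∀ C ⊆ N \ A, IsPreconnected C → ∀ x ∈ C, ∀ y ∈ C, g x = g y) :
    ∃ a b, (∀ᶠ t in 𝓝[<] t0, g (γ t) = a) ∧ (∀ᶠ t in 𝓝[>] t0, g (γ t) = b) ∧
      (∀ᶠ x in 𝓝 p, x ∉ A → g x = a ∨ g x = b) := by
  obtain ⟨φ, hps, hp0, hA, hB⟩ := h
  have h0t : (0 : Plane) ∈ φ.target := hp0 ▸ φ.map_source hps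
  have hs0 : φ.symm 0 = p := by rw [← hp0, φ.left_inv hps]
  have hcs : ContinuousAt φ.symm 0 :=
    φ.continuousOn_symm.continuousAt (φ.open_target.mem_nhds h0t)
  have hN' : φ.symm ⁻¹' N ∈ 𝓝 (0 : Plane) := hcs (by rw [hs0]; exact hN)
  obtain ⟨ε, hε, hball⟩ := Metric.mem_nhds_iff.1
    (Filter.inter_mem (φ.open_target.mem_nhds h0t) hN')
  set Q := Metric.ball (0 : Plane) ε with hQ
  have hQt : ∀ z ∈ Q, z ∈ φ.target := fun z hz => (hball hz).1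
  have hQN : ∀ z ∈ Q, φ.symm z ∈ N := fun z hz => (hball hz).2
  have hupc : Convex ℝ (Q ∩ {z : Plane | 0 < z.2}) :=
    (convex_ball _ _).inter (convex_halfSpace_gt (IsLinearMap.mk (by simp) (by simp)) 0)
  have hloc : Convex ℝ (Q ∩ {z : Plane | z.2 < 0}) :=
    (convex_ball _ _).inter (convex_halfSpace_lt (IsLinearMap.mk (by simp) (by simp)) 0)
  have hup : IsPreconnected (φ.symm '' (Q ∩ {z : Plane | 0 < z.2})) :=
    hupc.isPreconnected.image _ (φ.continuousOn_symm.mono fun z hz => hQt z hz.1)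
  have hlo : IsPreconnected (φ.symm '' (Q ∩ {z : Plane | z.2 < 0})) :=
    hloc.isPreconnected.image _ (φ.continuousOn_symm.mono fun z hz => hQt z hz.1)
  have hup' : φ.symm '' (Q ∩ {z : Plane | 0 < z.2}) ⊆ N \ A := by
    rintro _ ⟨z, ⟨hz, hz2⟩, rfl⟩
    refine ⟨hQN z hz, fun hzA => ?_⟩
    rw [hA _ (φ.map_target (hQt z hz)), φ.right_inv (hQt z hz)] at hzA
    exact absurd hzA (ne_of_gt hz2)
  have hlo' : φ.symm '' (Q ∩ {z : Plane | z.2 < 0}) ⊆ N \ A := by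
    rintro _ ⟨z, ⟨hz, hz2⟩, rfl⟩
    refine ⟨hQN z hz, fun hzA => ?_⟩
    rw [hA _ (φ.map_target (hQt z hz)), φ.right_inv (hQt z hz)] at hzA
    exact absurd hzA (ne_of_lt hz2)
  have hpt1 : ((0 : ℝ), ε / 2) ∈ Q ∩ {z : Plane | 0 < z.2} := by
    refine ⟨?_, by simpa using hε⟩
    rw [hQ, Metric.mem_ball, dist_eq_norm, sub_zero, Prod.norm_def]
    simp [abs_of_pos hε, hε]
  have hpt2 : ((0 : ℝ), -(ε / 2)) ∈ Q ∩ {z : Plane | z.2 < 0} := by
    refine ⟨?_, by simpa using hε⟩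
    rw [hQ, Metric.mem_ball, dist_eq_norm, sub_zero, Prod.norm_def]
    simp [abs_of_pos hε, hε]
  set a1 := g (φ.symm ((0 : ℝ), ε / 2)) with ha1
  set a2 := g (φ.symm ((0 : ℝ), -(ε / 2))) with ha2
  have hpos : ∀ x ∈ φ.source, φ x ∈ Q → 0 < (φ x).2 → g x = a1 := by
    intro x hx hxQ hx2
    refine hg _ hup' hup x ⟨φ x, ⟨hxQ, hx2⟩, φ.left_inv hx⟩ _ ⟨_, hpt1, rfl⟩
  have hneg : ∀ x ∈ φ.source, φ x ∈ Q → (φ x).2 < 0 → g x = a2 := by
    intro x hx hxQ hx2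
    refine hg _ hlo' hlo x ⟨φ x, ⟨hxQ, hx2⟩, φ.left_inv hx⟩ _ ⟨_, hpt2, rfl⟩
  have hQ0 : Q ∈ 𝓝 (φ p) := by rw [hp0]; exact Metric.ball_mem_nhds _ hε
  have hφp : ContinuousAt φ p := φ.continuousOn.continuousAt (φ.open_source.mem_nhds hps)
  have hnear : ∀ᶠ x in 𝓝 p, x ∈ φ.source ∧ φ x ∈ Q :=
    Filter.Eventually.and (φ.open_source.mem_nhds hps) (hφp hQ0)
  have hγ0 : ContinuousAt γ t0 := hc.continuousAt (Icc_mem_nhds ht0.1 ht0.2)
  have hnear' : ∀ᶠ t in 𝓝 t0, t ∈ Icc (0 : ℝ) 1 ∧ γ t ∈ φ.source ∧ φ (γ t) ∈ Q :=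
    Filter.Eventually.and (Icc_mem_nhds ht0.1 ht0.2) (hγ0.eventually (by rw [hp]; exact hnear))
  obtain ⟨δ, hδ, hδb⟩ := Metric.eventually_nhds_iff_ball.1 hnear'
  have hIoo : ∀ t ∈ Ioo (t0 - δ) (t0 + δ), t ∈ Icc (0 : ℝ) 1 ∧ γ t ∈ φ.source ∧ φ (γ t) ∈ Q := by
    intro t ht
    refine hδb t ?_
    rw [Real.ball_eq_Ioo]
    exact ht
  set y : ℝ → ℝ := fun t => (φ (γ t)).2 with hy
  have hyc : ContinuousOn y (Ioo (t0 - δ) (t0 + δ)) := by
    refine continuous_snd.comp_continuousOn ?_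
    refine φ.continuousOn.comp (hc.mono fun t ht => (hIoo t ht).1) ?_
    intro t ht
    exact (hIoo t ht).2.1
  have hfst : ∀ t ∈ Ioo (t0 - δ) (t0 + δ), (φ (γ t)).1 = 0 := by
    intro t ht
    obtain ⟨h1, h2, _⟩ := hIoo t ht
    exact (hB _ h2).1 (him ▸ ⟨t, h1, rfl⟩)
  have hyi : InjOn y (Ioo (t0 - δ) (t0 + δ)) := by
    intro s hs t ht hst
    have : φ (γ s) = φ (γ t) := Prod.ext (by rw [hfst s hs, hfst t ht]) hst
    have := φ.injOn (hIoo s hs).2.1 (hIoo t ht).2.1 this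
    exact hi (hIoo s hs).1 (hIoo t ht).1 this
  have hy0 : y t0 = 0 := by simp [hy, hp, hp0]
  have ht0m : t0 ∈ Ioo (t0 - δ) (t0 + δ) := ⟨by linarith, by linarith⟩
  have hmem : ∀ᶠ t in 𝓝 t0, t ∈ Ioo (t0 - δ) (t0 + δ) := Ioo_mem_nhds ht0m.1 ht0m.2
  have hnearp : ∀ᶠ x in 𝓝 p, x ∉ A → g x = a1 ∨ g x = a2 := by
    filter_upwards [hnear] with x hx hxA
    have hne : (φ x).2 ≠ 0 := fun h => hxA ((hA x hx.1).2 h)
    rcases lt_or_gt_of_ne hne with h | h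
    · exact Or.inr (hneg x hx.1 hx.2 h)
    · exact Or.inl (hpos x hx.1 hx.2 h)
  rcases hyc.strictMonoOn_of_injOn_Ioo (by linarith) hyi with hmono | hanti
  · refine ⟨a2, a1, ?_, ?_, ?_⟩
    · filter_upwards [nhdsWithin_le_nhds hmem, self_mem_nhdsWithin] with t ht ht'
      refine hneg _ (hIoo t ht).2.1 (hIoo t ht).2.2 ?_
      have := hmono ht ht0m ht'
      rwa [hy0] at this
    · filter_upwards [nhdsWithin_le_nhds hmem, self_mem_nhdsWithin] with t ht ht'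
      refine hpos _ (hIoo t ht).2.1 (hIoo t ht).2.2 ?_
      have := hmono ht0m ht ht'
      rwa [hy0] at this
    · filter_upwards [hnearp] with x hx hxA
      exact (hx hxA).symm
  · refine ⟨a1, a2, ?_, ?_, ?_⟩
    · filter_upwards [nhdsWithin_le_nhds hmem, self_mem_nhdsWithin] with t ht ht'
      refine hpos _ (hIoo t ht).2.1 (hIoo t ht).2.2 ?_
      have := hanti ht ht0m ht'
      rwa [hy0] at this
    · filter_upwards [nhdsWithin_le_nhds hmem, self_mem_nhdsWithin] with t ht ht'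
      refine hneg _ (hIoo t ht).2.1 (hIoo t ht).2.2 ?_
      have := hanti ht0m ht ht'
      rwa [hy0] at this
    · exact hnearp

end Pool.Agent.Work.MP_2f2fa8_co
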