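import Mathlib
import Pool.Agent.Work.MP_2f2fa8_co.Arc

set_option autoImplicit false

open Set Filter Topology

namespace Pool.Agent.Work.MP_2f2fa8_co

/-! ### Points near a given point and their cells -/

theorem floor_near (x : ℝ) :
    ∀ᶠ y in 𝓝 x, ⌊y⌋ = ⌊x⌋ ∨ (x = ⌊x⌋ ∧ ⌊y⌋ = ⌊x⌋ - 1) := by
  by_cases h : x = ⌊x⌋
  · have : Ioo ((⌊x⌋ : ℝ) - 1) (⌊x⌋ + 1) ∈ 𝓝 x :=
      Ioo_mem_nhds (by linarith) (Int.lt_floor_add_one x)
    filter_upwards [this] with y hy
    rcases le_or_gt (⌊x⌋ : ℝ) y with h1 | h1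
    · left
      exact Int.floor_eq_iff.2 ⟨h1, hy.2⟩
    · right
      refine ⟨h, Int.floor_eq_iff.2 ⟨by push_cast; linarith [hy.1], by push_cast; linarith⟩⟩
  · have : Ioo (⌊x⌋ : ℝ) (⌊x⌋ + 1) ∈ 𝓝 x :=
      Ioo_mem_nhds (lt_of_le_of_ne (Int.floor_le x) (Ne.symm h)) (Int.lt_floor_add_one x)
    filter_upwards [this] with y hy
    exact Or.inl (Int.floor_eq_iff.2 ⟨hy.1.le, hy.2⟩)

theorem floor_right (x : ℝ) :
    ∀ᶠ e in 𝓝[>] (0 : ℝ), ⌊x + e⌋ = ⌊x⌋ ∧ ∀ i : ℤ, x + e ≠ i := by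
  have h : (0 : ℝ) < ⌊x⌋ + 1 - x := by linarith [Int.lt_floor_add_one x]
  filter_upwards [Ioo_mem_nhdsGT h] with e he
  have h1 : ⌊x + e⌋ = ⌊x⌋ :=
    Int.floor_eq_iff.2 ⟨by linarith [Int.floor_le x, he.1], by linarith [he.2]⟩
  refine ⟨h1, fun i hi => ?_⟩
  have h2 : ⌊x + e⌋ = i := by rw [hi]; exact Int.floor_intCast i
  have h3 : (⌊x⌋ : ℝ) = x + e := by rw [hi, ← h2, h1]
  linarith [Int.floor_le x, he.1]

theorem floor_left {x : ℝ} (hx : x = ⌊x⌋) :
    ∀ᶠ e in 𝓝[>] (0 : ℝ), ⌊x + -e⌋ = ⌊x⌋ - 1 ∧ ∀ i : ℤ, x + -e ≠ i := by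
  filter_upwards [Ioo_mem_nhdsGT (zero_lt_one (α := ℝ))] with e he
  have h1 : ⌊x + -e⌋ = ⌊x⌋ - 1 :=
    Int.floor_eq_iff.2 ⟨by push_cast; linarith [he.2], by push_cast; linarith [he.1]⟩
  refine ⟨h1, fun i hi => ?_⟩
  have h2 : ⌊x + -e⌋ = i := by rw [hi]; exact Int.floor_intCast i
  have h3 : (i : ℝ) = ⌊x⌋ - 1 := by rw [← h2, h1]; push_cast; ring
  rw [← hi] at h3
  linarith [he.2]

/-- the integer `i` is (the first coordinate of) a cell whose closure contains `x` -/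
def NearI (x : ℝ) (i : ℤ) : Prop := i = ⌊x⌋ ∨ (x = ⌊x⌋ ∧ i = ⌊x⌋ - 1)

theorem exists_off {x : ℝ} {i : ℤ} (h : NearI x i) :
    ∃ s : ℝ, ∀ᶠ e in 𝓝[>] (0 : ℝ), ⌊x + s * e⌋ = i ∧ ∀ k : ℤ, x + s * e ≠ k := by
  rcases h with rfl | ⟨h, rfl⟩
  · exact ⟨1, by simpa using floor_right x⟩
  · exact ⟨-1, by simpa using floor_left h⟩

/-- The data of a drawing on the integer grid, with the labels of the faces. -/
structure GridSys (ι : Type) [Fintype ι] [DecidableEq ι] (L : ι → List (ℤ × ℤ))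
    (lab : ℤ → ℤ → ℕ) (adj : ι → ℕ → ℕ → Prop) : Prop where
  path : ∀ k, GridPath (L k)
  nodup : ∀ k, (L k).Nodup
  len : ∀ k, 2 ≤ (L k).length
  freeV : ∀ i j, (∀ k, ¬ onV (L k) i j) → lab (i - 1) j = lab i j
  freeH : ∀ i j, (∀ k, ¬ onH (L k) i j) → lab i (j - 1) = lab i j
  symm : ∀ k a b, adj k a b → adj k b a
  adjV : ∀ k i j, onV (L k) i j → adj k (lab (i - 1) j) (lab i j)
  adjH : ∀ k i j, onH (L k) i j → adj k (lab i (j - 1)) (lab i j)
  cross : ∀ k l, k ≠ l → ∃ c : ℤ × ℤ, c ∈ L k ∧ c ∈ L l ∧ (∀ q ∈ L k, q ∈ L l → q = c) ∧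
    ((onH (L k) (c.1 - 1) c.2 ∧ onH (L k) c.1 c.2 ∧ ¬ onV (L k) c.1 c.2 ∧
        ¬ onV (L k) c.1 (c.2 - 1) ∧
      onV (L l) c.1 (c.2 - 1) ∧ onV (L l) c.1 c.2 ∧ ¬ onH (L l) c.1 c.2 ∧
        ¬ onH (L l) (c.1 - 1) c.2) ∨
     (onH (L l) (c.1 - 1) c.2 ∧ onH (L l) c.1 c.2 ∧ ¬ onV (L l) c.1 c.2 ∧
        ¬ onV (L l) c.1 (c.2 - 1) ∧
      onV (L k) c.1 (c.2 - 1) ∧ onV (L k) c.1 c.2 ∧ ¬ onH (L k) c.1 c.2 ∧
        ¬ onH (L k) (c.1 - 1) c.2))
  single : ∀ k, ∀ c ∈ L k, (∀ l, l ≠ k → c ∉ L l) → some c ≠ (L k).head? →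
    some c ≠ (L k).getLast? → ∀ a b,
    (lab (c.1 - 1) (c.2 - 1) = a ∨ lab (c.1 - 1) (c.2 - 1) = b) →
    (lab c.1 (c.2 - 1) = a ∨ lab c.1 (c.2 - 1) = b) →
    (lab (c.1 - 1) c.2 = a ∨ lab (c.1 - 1) c.2 = b) →
    (lab c.1 c.2 = a ∨ lab c.1 c.2 = b) →
    (a = lab (c.1 - 1) (c.2 - 1) ∨ a = lab c.1 (c.2 - 1) ∨ a = lab (c.1 - 1) c.2 ∨
      a = lab c.1 c.2) →
    (b = lab (c.1 - 1) (c.2 - 1) ∨ b = lab c.1 (c.2 - 1) ∨ b = lab (c.1 - 1) c.2 ∨
      b = lab c.1 c.2) → adj k a b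

section

variable {ι : Type} [Fintype ι] [DecidableEq ι] {L : ι → List (ℤ × ℤ)}
  {lab : ℤ → ℤ → ℕ} {adj : ι → ℕ → ℕ → Prop}

/-- the label of a point: the label of its half-open cell -/
noncomputable def labP (lab : ℤ → ℤ → ℕ) (p : Plane) : ℕ := lab ⌊p.1⌋ ⌊p.2⌋

theorem near_cells (p : Plane) :
    ∀ᶠ q in 𝓝 p, ∃ i j, NearI p.1 i ∧ NearI p.2 j ∧ ⌊q.1⌋ = i ∧ ⌊q.2⌋ = j := by
  have h1 := (continuous_fst.tendsto p).eventually (floor_near p.1)
  have h2 := (continuous_snd.tendsto p).eventually (floor_near p.2)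
  filter_upwards [h1, h2] with q hq1 hq2
  refine ⟨_, _, ?_, ?_, rfl, rfl⟩
  · rcases hq1 with h | h
    · exact Or.inl h
    · exact Or.inr h
  · rcases hq2 with h | h
    · exact Or.inl h
    · exact Or.inr h

/-- every cell around `p` accumulates at `p`, off the arcs -/
theorem cell_accumulates (G : GridSys ι L lab adj) {p : Plane} {i j : ℤ} (hi : NearI p.1 i)
    (hj : NearI p.2 j) {P : Plane → Prop} (hP : ∀ᶠ q in 𝓝 p, P q) :
    ∃ q, P q ∧ (∀ k, q ∉ polySet (L k)) ∧ ⌊q.1⌋ = i ∧ ⌊q.2⌋ = j := by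
  obtain ⟨s, hs⟩ := exists_off hi
  obtain ⟨t, ht⟩ := exists_off hj
  have hlim : Tendsto (fun e : ℝ => ((p.1 + s * e, p.2 + t * e) : Plane)) (𝓝[>] 0) (𝓝 p) := by
    have : Continuous (fun e : ℝ => ((p.1 + s * e, p.2 + t * e) : Plane)) := by fun_prop
    have h := this.tendsto 0
    simp only [mul_zero, add_zero] at h
    exact h.mono_left nhdsWithin_le_nhds
  obtain ⟨e, he1, he2, he3⟩ := (hs.and (ht.and (hlim.eventually hP))).exists
  refine ⟨_, he3, fun k => ?_, he1.1, he2.1⟩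
  exact notMem_polySet_cell (G.path k) he1.2 he2.2

/-- the label is locally constant off the arcs -/
theorem lab_locally_const (G : GridSys ι L lab adj) {p : Plane} (hp : ∀ k, p ∉ polySet (L k)) :
    ∀ᶠ q in 𝓝 p, labP lab q = labP lab p := by
  filter_upwards [near_cells p] with q hq
  obtain ⟨i, j, hi, hj, hqi, hqj⟩ := hq
  unfold labP
  rw [hqi, hqj]
  have grid : ∀ c : ℤ × ℤ, p = toP c → ∀ k, c ∉ L k := fun c hc k hk =>
    hp k (hc ▸ (mem_polySet_grid (G.path k) (G.len k) c).2 hk)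
  by_cases h1 : p.1 = ⌊p.1⌋
  · by_cases h2 : p.2 = ⌊p.2⌋
    · have hpc : p = toP (⌊p.1⌋, ⌊p.2⌋) := Prod.ext h1 h2
      have hc := grid _ hpc
      have v1 : ∀ k, ¬ onV (L k) ⌊p.1⌋ ⌊p.2⌋ := fun k h => by
        rcases h with h | h
        · exact hc k (mem_of_zip_tail h).1
        · exact hc k (mem_of_zip_tail h).2
      have v2 : ∀ k, ¬ onV (L k) ⌊p.1⌋ (⌊p.2⌋ - 1) := fun k h => by
        rcases h with h | h
        · have := (mem_of_zip_tail h).2
          rw [sub_add_cancel] at this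
          exact hc k this
        · have := (mem_of_zip_tail h).1
          rw [sub_add_cancel] at this
          exact hc k this
      have w1 : ∀ k, ¬ onH (L k) ⌊p.1⌋ ⌊p.2⌋ := fun k h => by
        rcases h with h | h
        · exact hc k (mem_of_zip_tail h).1
        · exact hc k (mem_of_zip_tail h).2
      have w2 : ∀ k, ¬ onH (L k) (⌊p.1⌋ - 1) ⌊p.2⌋ := fun k h => by
        rcases h with h | h
        · have := (mem_of_zip_tail h).2
          rw [sub_add_cancel] at this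
          exact hc k this
        · have := (mem_of_zip_tail h).1
          rw [sub_add_cancel] at this
          exact hc k this
      have e1 := G.freeV _ _ v1
      have e2 := G.freeV _ _ v2
      have e3 := G.freeH _ _ w1
      have e4 := G.freeH _ _ w2
      rcases hi with rfl | ⟨_, rfl⟩ <;> rcases hj with rfl | ⟨_, rfl⟩
      · rfl
      · exact e3
      · exact e1
      · rw [e4, e1]
    · have hj' : j = ⌊p.2⌋ := by
        rcases hj with h | ⟨h, _⟩
        · exact h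
        · exact absurd h h2
      subst hj'
      have v1 : ∀ k, ¬ onV (L k) ⌊p.1⌋ ⌊p.2⌋ := fun k h => by
        refine hp k ((mem_polySet_ver (G.path k)
          (lt_of_le_of_ne (Int.floor_le p.2) (Ne.symm h2)) (Int.lt_floor_add_one p.2) h1).2 h)
      rcases hi with rfl | ⟨_, rfl⟩
      · rfl
      · exact G.freeV _ _ v1
  · have hi' : i = ⌊p.1⌋ := by
      rcases hi with h | ⟨h, _⟩
      · exact h
      · exact absurd h h1
    subst hi'
    rcases hj with rfl | ⟨h2, rfl⟩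
    · rfl
    · have w1 : ∀ k, ¬ onH (L k) ⌊p.1⌋ ⌊p.2⌋ := fun k h => by
        refine hp k ((mem_polySet_hor (G.path k)
          (lt_of_le_of_ne (Int.floor_le p.1) (Ne.symm h1)) (Int.lt_floor_add_one p.1) h2).2 h)
      exact G.freeH _ _ w1

theorem polySet_isClosed (G : GridSys ι L lab adj) (k : ι) : IsClosed (polySet (L k)) :=
  (polySet_jordan (L k) (G.path k) (G.nodup k) (G.len k)).isClosed

/-- the label is constant on connected sets off the arcs -/
theorem lab_const (G : GridSys ι L lab adj) {C : Set Plane}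
    (hC : ∀ q ∈ C, ∀ k, q ∉ polySet (L k)) (hc : IsPreconnected C) {x y : Plane} (hx : x ∈ C)
    (hy : y ∈ C) : labP lab x = labP lab y := by
  refine hc.constant (Y := ℕ) (f := labP lab) ?_ hx hy
  intro q hq
  have h : Tendsto (labP lab) (𝓝 q) (𝓝 (labP lab q)) := by
    rw [nhds_discrete ℕ, tendsto_pure]
    exact lab_locally_const G (hC q hq)
  exact ContinuousAt.continuousWithinAt h

theorem adj_of {R : ℕ → ℕ → Prop} {x y a b : ℕ} (h : R x y) (h' : R y x) (x1 : x = a ∨ x = b)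
    (x2 : y = a ∨ y = b) (ya : a = x ∨ a = y) (yb : b = x ∨ b = y) : R a b := by
  rcases ya with rfl | rfl <;> rcases yb with rfl | rfl
  · rcases x2 with x2 | x2 <;> exact x2 ▸ h
  · exact h
  · exact h'
  · rcases x1 with x1 | x1 <;> exact x1 ▸ h

/-- At a point that lies on the arc `k` only (and is not an end point), the two values which the
label takes near the point are adjacent across `k`. -/
theorem step_single (G : GridSys ι L lab adj) {k : ι} {p : Plane} (hp : p ∈ polySet (L k))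
    (hl : ∀ l, l ≠ k → p ∉ polySet (L l))
    (hne : ∀ c : ℤ × ℤ, p = toP c → some c ≠ (L k).head? ∧ some c ≠ (L k).getLast?)
    {a b : ℕ} (hab : ∀ i j, NearI p.1 i → NearI p.2 j → lab i j = a ∨ lab i j = b)
    (ha : ∃ i j, NearI p.1 i ∧ NearI p.2 j ∧ lab i j = a)
    (hb : ∃ i j, NearI p.1 i ∧ NearI p.2 j ∧ lab i j = b) : adj k a b := by
  by_cases h1 : p.1 = ⌊p.1⌋
  · by_cases h2 : p.2 = ⌊p.2⌋
    · have hpc : p = toP (⌊p.1⌋, ⌊p.2⌋) := Prod.ext h1 h2
      have hck : (⌊p.1⌋, ⌊p.2⌋) ∈ L k :=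
        (mem_polySet_grid (G.path k) (G.len k) _).1 (hpc ▸ hp)
      have hcl : ∀ l, l ≠ k → (⌊p.1⌋, ⌊p.2⌋) ∉ L l := fun l hlk hcl =>
        hl l hlk (by rw [hpc]; exact (mem_polySet_grid (G.path l) (G.len l) _).2 hcl)
      have n00 : NearI p.1 ⌊p.1⌋ := Or.inl rfl
      have n01 : NearI p.1 (⌊p.1⌋ - 1) := Or.inr ⟨h1, rfl⟩
      have n10 : NearI p.2 ⌊p.2⌋ := Or.inl rfl
      have n11 : NearI p.2 (⌊p.2⌋ - 1) := Or.inr ⟨h2, rfl⟩
      refine G.single k _ hck hcl (hne _ hpc).1 (hne _ hpc).2 a b (hab _ _ n01 n11)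
        (hab _ _ n00 n11) (hab _ _ n01 n10) (hab _ _ n00 n10) ?_ ?_
      · obtain ⟨i, j, hi, hj, rfl⟩ := ha
        rcases hi with rfl | ⟨_, rfl⟩ <;> rcases hj with rfl | ⟨_, rfl⟩ <;> simp
      · obtain ⟨i, j, hi, hj, rfl⟩ := hb
        rcases hi with rfl | ⟨_, rfl⟩ <;> rcases hj with rfl | ⟨_, rfl⟩ <;> simp
    · have hj' : ∀ j, NearI p.2 j → j = ⌊p.2⌋ := by
        intro j hj
        rcases hj with h | ⟨h, _⟩
        · exact h
        · exact absurd h h2
      have hon : onV (L k) ⌊p.1⌋ ⌊p.2⌋ := (mem_polySet_ver (G.path k)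
          (lt_of_le_of_ne (Int.floor_le p.2) (Ne.symm h2)) (Int.lt_floor_add_one p.2) h1).1 hp
      have had := G.adjV k _ _ hon
      have n00 : NearI p.1 ⌊p.1⌋ := Or.inl rfl
      have n01 : NearI p.1 (⌊p.1⌋ - 1) := Or.inr ⟨h1, rfl⟩
      have n10 : NearI p.2 ⌊p.2⌋ := Or.inl rfl
      have x1 := hab _ _ n01 n10
      have x2 := hab _ _ n00 n10
      have ya : a = lab (⌊p.1⌋ - 1) ⌊p.2⌋ ∨ a = lab ⌊p.1⌋ ⌊p.2⌋ := by
        obtain ⟨i, j, hi, hj, rfl⟩ := ha
        rw [hj' j hj]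
        rcases hi with rfl | ⟨_, rfl⟩ <;> simp
      have yb : b = lab (⌊p.1⌋ - 1) ⌊p.2⌋ ∨ b = lab ⌊p.1⌋ ⌊p.2⌋ := by
        obtain ⟨i, j, hi, hj, rfl⟩ := hb
        rw [hj' j hj]
        rcases hi with rfl | ⟨_, rfl⟩ <;> simp
      have had' := G.symm _ _ _ had
      exact adj_of had had' x1 x2 ya yb
  · have hi' : ∀ i, NearI p.1 i → i = ⌊p.1⌋ := by
      intro i hi
      rcases hi with h | ⟨h, _⟩
      · exact h
      · exact absurd h h1
    by_cases h2 : p.2 = ⌊p.2⌋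
    · have hon : onH (L k) ⌊p.1⌋ ⌊p.2⌋ := (mem_polySet_hor (G.path k)
          (lt_of_le_of_ne (Int.floor_le p.1) (Ne.symm h1)) (Int.lt_floor_add_one p.1) h2).1 hp
      have had := G.adjH k _ _ hon
      have n00 : NearI p.1 ⌊p.1⌋ := Or.inl rfl
      have n10 : NearI p.2 ⌊p.2⌋ := Or.inl rfl
      have n11 : NearI p.2 (⌊p.2⌋ - 1) := Or.inr ⟨h2, rfl⟩
      have x1 := hab _ _ n00 n11
      have x2 := hab _ _ n00 n10
      have ya : a = lab ⌊p.1⌋ (⌊p.2⌋ - 1) ∨ a = lab ⌊p.1⌋ ⌊p.2⌋ := by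
        obtain ⟨i, j, hi, hj, rfl⟩ := ha
        rw [hi' i hi]
        rcases hj with rfl | ⟨_, rfl⟩ <;> simp
      have yb : b = lab ⌊p.1⌋ (⌊p.2⌋ - 1) ∨ b = lab ⌊p.1⌋ ⌊p.2⌋ := by
        obtain ⟨i, j, hi, hj, rfl⟩ := hb
        rw [hi' i hi]
        rcases hj with rfl | ⟨_, rfl⟩ <;> simp
      have had' := G.symm _ _ _ had
      exact adj_of had had' x1 x2 ya yb
    · exfalso
      refine notMem_polySet_cell (G.path k) (fun i hi => h1 ?_) (fun j hj => h2 ?_) hp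
      · rw [hi, Int.floor_intCast]
      · rw [hj, Int.floor_intCast]

/-- shape of an arc near a point where it goes straight in the horizontal direction -/
theorem shapeH (G : GridSys ι L lab adj) {k : ι} {c : ℤ × ℤ}
    (h : onH (L k) (c.1 - 1) c.2 ∧ onH (L k) c.1 c.2 ∧ ¬ onV (L k) c.1 c.2 ∧
        ¬ onV (L k) c.1 (c.2 - 1)) {q : Plane} (h1 : (c.1 : ℝ) - 1 < q.1) (h2 : q.1 < c.1 + 1)
    (h3 : (c.2 : ℝ) - 1 < q.2) (h4 : q.2 < c.2 + 1) : q ∈ polySet (L k) ↔ q.2 = c.2 := by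
  obtain ⟨a1, a2, a3, a4⟩ := h
  constructor
  · intro hq
    by_contra hne
    -- `q` is not on a horizontal line; it must be on the vertical line through `c`
    have hnint : ∀ j : ℤ, q.2 ≠ j := by
      intro j hj
      rw [hj] at h3 h4 hne
      have b1 : c.2 - 1 < j := by exact_mod_cast h3
      have b2 : j < c.2 + 1 := by exact_mod_cast h4
      exact hne (by exact_mod_cast (by omega : j = c.2))
    by_cases hx : ∃ i : ℤ, q.1 = i
    · obtain ⟨i, hi⟩ := hx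
      have hi' : i = c.1 := by
        rw [hi] at h1 h2
        have b1 : c.1 - 1 < i := by exact_mod_cast h1
        have b2 : i < c.1 + 1 := by exact_mod_cast h2
        omega
      rcases lt_or_gt_of_ne hne with h | h
      · have := (mem_polySet_ver (G.path k) (i := i) (j := c.2 - 1) (p := q)
          (by push_cast; exact h3) (by push_cast; linarith) hi).1 hq
        exact a4 (hi' ▸ this)
      · have := (mem_polySet_ver (G.path k) (i := i) (j := c.2) (p := q) h h4 hi).1 hq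
        exact a3 (hi' ▸ this)
    · exact notMem_polySet_cell (G.path k) (fun i hi => hx ⟨i, hi⟩) hnint hq
  · intro hq
    rw [mem_polySet (G.path k)]
    left
    rcases le_total q.1 c.1 with h | h
    · exact ⟨c.1 - 1, c.2, a1, hq, by push_cast; linarith, by push_cast; linarith⟩
    · exact ⟨c.1, c.2, a2, hq, h, h2.le⟩

/-- shape of an arc near a point where it goes straight in the vertical direction -/
theorem shapeV (G : GridSys ι L lab adj) {k : ι} {c : ℤ × ℤ}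
    (h : onV (L k) c.1 (c.2 - 1) ∧ onV (L k) c.1 c.2 ∧ ¬ onH (L k) c.1 c.2 ∧
        ¬ onH (L k) (c.1 - 1) c.2) {q : Plane} (h1 : (c.1 : ℝ) - 1 < q.1) (h2 : q.1 < c.1 + 1)
    (h3 : (c.2 : ℝ) - 1 < q.2) (h4 : q.2 < c.2 + 1) : q ∈ polySet (L k) ↔ q.1 = c.1 := by
  obtain ⟨a1, a2, a3, a4⟩ := h
  constructor
  · intro hq
    by_contra hne
    have hnint : ∀ i : ℤ, q.1 ≠ i := by
      intro i hi
      rw [hi] at h1 h2 hne
      have b1 : c.1 - 1 < i := by exact_mod_cast h1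
      have b2 : i < c.1 + 1 := by exact_mod_cast h2
      exact hne (by exact_mod_cast (by omega : i = c.1))
    by_cases hx : ∃ j : ℤ, q.2 = j
    · obtain ⟨j, hj⟩ := hx
      have hj' : j = c.2 := by
        rw [hj] at h3 h4
        have b1 : c.2 - 1 < j := by exact_mod_cast h3
        have b2 : j < c.2 + 1 := by exact_mod_cast h4
        omega
      rcases lt_or_gt_of_ne hne with h | h
      · have := (mem_polySet_hor (G.path k) (i := c.1 - 1) (j := j) (p := q)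
          (by push_cast; exact h1) (by push_cast; linarith) hj).1 hq
        exact a4 (hj' ▸ this)
      · have := (mem_polySet_hor (G.path k) (i := c.1) (j := j) (p := q) h h2 hj).1 hq
        exact a3 (hj' ▸ this)
    · exact notMem_polySet_cell (G.path k) hnint (fun i hi => hx ⟨i, hi⟩) hq
  · intro hq
    rw [mem_polySet (G.path k)]
    right
    rcases le_total q.2 c.2 with h | h
    · exact ⟨c.1, c.2 - 1, a1, hq, by push_cast; linarith, by push_cast; linarith⟩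
    · exact ⟨c.1, c.2, a2, hq, h, h4.le⟩

/-- two different arcs meet in one grid point -/
theorem inter_eq (G : GridSys ι L lab adj) {k l : ι} {c : ℤ × ℤ}
    (hk : c ∈ L k) (hl : c ∈ L l) (hu : ∀ q ∈ L k, q ∈ L l → q = c) :
    polySet (L k) ∩ polySet (L l) = {toP c} := by
  ext p
  constructor
  · rintro ⟨h1, h2⟩
    rw [mem_singleton_iff]
    by_cases hx : ∃ i : ℤ, p.1 = i
    · obtain ⟨i, hi⟩ := hx
      by_cases hy : ∃ j : ℤ, p.2 = j
      · obtain ⟨j, hj⟩ := hy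
        have hp : p = toP (i, j) := Prod.ext hi hj
        rw [hp] at h1 h2 ⊢
        rw [hu _ ((mem_polySet_grid (G.path k) (G.len k) _).1 h1)
          ((mem_polySet_grid (G.path l) (G.len l) _).1 h2)]
      · exfalso
        have hne : (⌊p.2⌋ : ℝ) < p.2 :=
          lt_of_le_of_ne (Int.floor_le _) fun h => hy ⟨⌊p.2⌋, h.symm⟩
        have o1 := (mem_polySet_ver (G.path k) hne (Int.lt_floor_add_one _) hi).1 h1
        have o2 := (mem_polySet_ver (G.path l) hne (Int.lt_floor_add_one _) hi).1 h2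
        have key : ∀ m : ι, onV (L m) i ⌊p.2⌋ → (i, ⌊p.2⌋) ∈ L m ∧ (i, ⌊p.2⌋ + 1) ∈ L m := by
          rintro m (h | h)
          · exact mem_of_zip_tail h
          · exact (mem_of_zip_tail h).symm
        have e1 := hu _ (key k o1).1 (key l o2).1
        have e2 := hu _ (key k o1).2 (key l o2).2
        have e3 := e1.trans e2.symm
        simp at e3
    · exfalso
      have hne : (⌊p.1⌋ : ℝ) < p.1 :=
        lt_of_le_of_ne (Int.floor_le _) fun h => hx ⟨⌊p.1⌋, h.symm⟩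
      by_cases hy : ∃ j : ℤ, p.2 = j
      · obtain ⟨j, hj⟩ := hy
        have o1 := (mem_polySet_hor (G.path k) hne (Int.lt_floor_add_one _) hj).1 h1
        have o2 := (mem_polySet_hor (G.path l) hne (Int.lt_floor_add_one _) hj).1 h2
        have key : ∀ m : ι, onH (L m) ⌊p.1⌋ j → (⌊p.1⌋, j) ∈ L m ∧ (⌊p.1⌋ + 1, j) ∈ L m := by
          rintro m (h | h)
          · exact mem_of_zip_tail h
          · exact (mem_of_zip_tail h).symm
        have e1 := hu _ (key k o1).1 (key l o2).1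
        have e2 := hu _ (key k o1).2 (key l o2).2
        have e3 := e1.trans e2.symm
        simp at e3
      · exact notMem_polySet_cell (G.path k) (fun i hi => hx ⟨i, hi⟩)
          (fun j hj => hy ⟨j, hj⟩) h1
  · rintro rfl
    exact ⟨(mem_polySet_grid (G.path k) (G.len k) _).2 hk,
      (mem_polySet_grid (G.path l) (G.len l) _).2 hl⟩

end

end Pool.Agent.Work.MP_2f2fa8_co
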