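import Mathlib
import Pool.Agent.Work.MP_2f2fa8_co.Cross
import Pool.Agent.Work.MP_2f2fa8_co.Grid

set_option autoImplicit false

open Set Filter Topology

namespace Pool.Agent.Work.MP_2f2fa8_co

/-- faces that can be reached from the face `f0` by crossing each arc of `S` exactly once -/
inductive Reach {ι : Type} [DecidableEq ι] (adj : ι → ℕ → ℕ → Prop) (f0 : ℕ) :
    Finset ι → ℕ → Prop
  | start : Reach adj f0 ∅ f0
  | step {S : Finset ι} {a b : ℕ} {k : ι} : Reach adj f0 S a → k ∉ S → adj k a b →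
      Reach adj f0 (insert k S) b

/-- At a crossing with a set that is locally the line `f = v`, the function `f - v` changes
sign. -/
theorem side_coord {A Γ : Set Plane} {p : Plane} (h : ProperCrossing A Γ p)
    {γ : ℝ → Plane} (hc : ContinuousOn γ (Icc 0 1)) (hi : InjOn γ (Icc 0 1))
    (him : γ '' Icc 0 1 = Γ) {t0 : ℝ} (ht0 : t0 ∈ Ioo (0 : ℝ) 1) (hp : γ t0 = p)
    {f : Plane → ℝ} (hf : Continuous f) {v : ℝ} {N : Set Plane} (hN : N ∈ 𝓝 p)
    (hNA : ∀ q ∈ N, q ∈ A ↔ f q = v) (hup : ∃ᶠ q in 𝓝 p, v < f q)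
    (hdn : ∃ᶠ q in 𝓝 p, f q < v) (hoff : ∀ t ∈ Icc (0 : ℝ) 1, γ t ∈ A → t = t0) :
    ((∀ᶠ t in 𝓝[<] t0, f (γ t) < v) ∧ (∀ᶠ t in 𝓝[>] t0, v < f (γ t))) ∨
    ((∀ᶠ t in 𝓝[<] t0, v < f (γ t)) ∧ (∀ᶠ t in 𝓝[>] t0, f (γ t) < v)) := by
  obtain ⟨α, β, h1, h2, h3⟩ := side_lemma h hc hi him ht0 hp (fun q => v < f q) hN (by
    intro C hC hpc x hx y hy
    have key : ∀ x ∈ C, ∀ y ∈ C, v < f x → v < f y := by
      intro x hx y hy hvx
      by_contra hvy
      have hle : f y ≤ v := not_lt.1 hvy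
      obtain ⟨z, hz, hfz⟩ := hpc.intermediate_value hy hx hf.continuousOn ⟨hle, hvx.le⟩
      exact (hC hz).2 ((hNA z (hC hz).1).2 hfz)
    exact propext ⟨key x hx y hy, key y hy x hx⟩)
  have hnear : ∀ᶠ t in 𝓝 t0, t ∈ Icc (0 : ℝ) 1 ∧ γ t ∈ N := by
    have hγ0 : ContinuousAt γ t0 := hc.continuousAt (Icc_mem_nhds ht0.1 ht0.2)
    exact Filter.Eventually.and (Icc_mem_nhds ht0.1 ht0.2) (hγ0 (by rw [hp]; exact hN))
  have hneL : ∀ᶠ t in 𝓝[<] t0, f (γ t) ≠ v := by
    filter_upwards [nhdsWithin_le_nhds hnear, self_mem_nhdsWithin] with t ht ht'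
    intro hft
    exact (ne_of_lt ht') (hoff t ht.1 ((hNA _ ht.2).2 hft))
  have hneR : ∀ᶠ t in 𝓝[>] t0, f (γ t) ≠ v := by
    filter_upwards [nhdsWithin_le_nhds hnear, self_mem_nhdsWithin] with t ht ht'
    intro hft
    exact (ne_of_gt ht') (hoff t ht.1 ((hNA _ ht.2).2 hft))
  have hT : α ∨ β := by
    obtain ⟨q, hq, hq2, hq3⟩ := (hup.and_eventually (h3.and hN)).exists
    have hqA : q ∉ A := fun hA => (ne_of_gt hq) ((hNA q hq3).1 hA)
    rcases hq2 hqA with h | h
    · exact Or.inl (h ▸ hq)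
    · exact Or.inr (h ▸ hq)
  have hF : ¬ α ∨ ¬ β := by
    obtain ⟨q, hq, hq2, hq3⟩ := (hdn.and_eventually (h3.and hN)).exists
    have hqA : q ∉ A := fun hA => (ne_of_lt hq) ((hNA q hq3).1 hA)
    rcases hq2 hqA with h | h
    · exact Or.inl (h ▸ not_lt.2 hq.le)
    · exact Or.inr (h ▸ not_lt.2 hq.le)
  by_cases hα : α
  · have hβ : ¬ β := hF.resolve_left (not_not.2 hα)
    right
    constructor
    · filter_upwards [h1] with t ht
      exact ht.mpr hα
    · filter_upwards [h2, hneR] with t ht ht'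
      exact lt_of_le_of_ne (not_lt.1 fun hlt => hβ (ht.mp hlt)) ht'
  · have hβ : β := hT.resolve_left hα
    left
    constructor
    · filter_upwards [h1, hneL] with t ht ht'
      exact lt_of_le_of_ne (not_lt.1 fun hlt => hα (ht.mp hlt)) ht'
    · filter_upwards [h2] with t ht
      exact ht.mpr hβ

section

variable {ι : Type} [Fintype ι] [DecidableEq ι] {L : ι → List (ℤ × ℤ)}
  {lab : ℤ → ℤ → ℕ} {adj : ι → ℕ → ℕ → Prop}

theorem box_mem (c : ℤ × ℤ) :
    {q : Plane | ((c.1 : ℝ) - 1 < q.1 ∧ q.1 < c.1 + 1) ∧ ((c.2 : ℝ) - 1 < q.2 ∧ q.2 < c.2 + 1)}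
      ∈ 𝓝 (toP c) := by
  have h1 : ∀ᶠ q : Plane in 𝓝 (toP c), (c.1 : ℝ) - 1 < q.1 ∧ q.1 < c.1 + 1 :=
    (continuous_fst.tendsto (toP c)).eventually
      (Ioo_mem_nhds (by simp [toP]) (by simp [toP]))
  have h2 : ∀ᶠ q : Plane in 𝓝 (toP c), (c.2 : ℝ) - 1 < q.2 ∧ q.2 < c.2 + 1 :=
    (continuous_snd.tendsto (toP c)).eventually
      (Ioo_mem_nhds (by simp [toP]) (by simp [toP]))
  exact h1.and h2

theorem freq_up1 (p : Plane) : ∃ᶠ q : Plane in 𝓝 p, p.1 < q.1 := by
  have hlim : Tendsto (fun e : ℝ => ((p.1 + e, p.2) : Plane)) (𝓝[>] 0) (𝓝 p) := by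
    have : Continuous (fun e : ℝ => ((p.1 + e, p.2) : Plane)) := by fun_prop
    have h := this.tendsto 0
    simp only [add_zero] at h
    exact h.mono_left nhdsWithin_le_nhds
  refine hlim.frequently (Eventually.frequently ?_)
  filter_upwards [self_mem_nhdsWithin] with e he
  simpa using he

theorem freq_dn1 (p : Plane) : ∃ᶠ q : Plane in 𝓝 p, q.1 < p.1 := by
  have hlim : Tendsto (fun e : ℝ => ((p.1 - e, p.2) : Plane)) (𝓝[>] 0) (𝓝 p) := by
    have : Continuous (fun e : ℝ => ((p.1 - e, p.2) : Plane)) := by fun_prop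
    have h := this.tendsto 0
    simp only [sub_zero] at h
    exact h.mono_left nhdsWithin_le_nhds
  refine hlim.frequently (Eventually.frequently ?_)
  filter_upwards [self_mem_nhdsWithin] with e he
  simpa using he

theorem freq_up2 (p : Plane) : ∃ᶠ q : Plane in 𝓝 p, p.2 < q.2 := by
  have hlim : Tendsto (fun e : ℝ => ((p.1, p.2 + e) : Plane)) (𝓝[>] 0) (𝓝 p) := by
    have : Continuous (fun e : ℝ => ((p.1, p.2 + e) : Plane)) := by fun_prop
    have h := this.tendsto 0
    simp only [add_zero] at h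
    exact h.mono_left nhdsWithin_le_nhds
  refine hlim.frequently (Eventually.frequently ?_)
  filter_upwards [self_mem_nhdsWithin] with e he
  simpa using he

theorem freq_dn2 (p : Plane) : ∃ᶠ q : Plane in 𝓝 p, q.2 < p.2 := by
  have hlim : Tendsto (fun e : ℝ => ((p.1, p.2 - e) : Plane)) (𝓝[>] 0) (𝓝 p) := by
    have : Continuous (fun e : ℝ => ((p.1, p.2 - e) : Plane)) := by fun_prop
    have h := this.tendsto 0
    simp only [sub_zero] at h
    exact h.mono_left nhdsWithin_le_nhds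
  refine hlim.frequently (Eventually.frequently ?_)
  filter_upwards [self_mem_nhdsWithin] with e he
  simpa using he

/-- The step at a point where two arcs cross. -/
theorem double_step (G : GridSys ι L lab adj) {k l : ι} {c : ℤ × ℤ}
    (hH : onH (L k) (c.1 - 1) c.2 ∧ onH (L k) c.1 c.2 ∧ ¬ onV (L k) c.1 c.2 ∧
        ¬ onV (L k) c.1 (c.2 - 1))
    (hV : onV (L l) c.1 (c.2 - 1) ∧ onV (L l) c.1 c.2 ∧ ¬ onH (L l) c.1 c.2 ∧
        ¬ onH (L l) (c.1 - 1) c.2)
    {Γ : Set Plane} {γ : ℝ → Plane} (hc : ContinuousOn γ (Icc 0 1)) (hi : InjOn γ (Icc 0 1))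
    (him : γ '' Icc 0 1 = Γ) {t0 : ℝ} (ht0 : t0 ∈ Ioo (0 : ℝ) 1) (hp : γ t0 = toP c)
    (hxk : ProperCrossing (polySet (L k)) Γ (toP c))
    (hxl : ProperCrossing (polySet (L l)) Γ (toP c))
    (hoffk : ∀ t ∈ Icc (0 : ℝ) 1, γ t ∈ polySet (L k) → t = t0)
    (hoffl : ∀ t ∈ Icc (0 : ℝ) 1, γ t ∈ polySet (L l) → t = t0) :
    ∃ a m b, (∀ᶠ t in 𝓝[<] t0, labP lab (γ t) = a) ∧ (∀ᶠ t in 𝓝[>] t0, labP lab (γ t) = b) ∧
      adj k a m ∧ adj l m b := by
  have hbox := box_mem c
  have h2 := side_coord hxk hc hi him ht0 hp (f := fun q => q.2) (by fun_prop) (v := c.2) hbox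
    (fun q hq => shapeH G hH hq.1.1 hq.1.2 hq.2.1 hq.2.2) (freq_up2 (toP c)) (freq_dn2 (toP c))
    hoffk
  have h1 := side_coord hxl hc hi him ht0 hp (f := fun q => q.1) (by fun_prop) (v := c.1) hbox
    (fun q hq => shapeV G hV hq.1.1 hq.1.2 hq.2.1 hq.2.2) (freq_up1 (toP c)) (freq_dn1 (toP c))
    hoffl
  have hγ0 : ContinuousAt γ t0 := hc.continuousAt (Icc_mem_nhds ht0.1 ht0.2)
  have hnear : ∀ᶠ t in 𝓝 t0, ((c.1 : ℝ) - 1 < (γ t).1 ∧ (γ t).1 < c.1 + 1) ∧
      ((c.2 : ℝ) - 1 < (γ t).2 ∧ (γ t).2 < c.2 + 1) := hγ0 (by rw [hp]; exact hbox)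
  have hnl : ∀ᶠ t in 𝓝[<] t0, _ := nhdsWithin_le_nhds hnear
  have hnr : ∀ᶠ t in 𝓝[>] t0, _ := nhdsWithin_le_nhds hnear
  -- labels in the four quadrants
  have q11 : ∀ q : Plane, ((c.1 : ℝ) - 1 < q.1 ∧ q.1 < c.1 + 1) ∧
      ((c.2 : ℝ) - 1 < q.2 ∧ q.2 < c.2 + 1) → (c.1 : ℝ) < q.1 → (c.2 : ℝ) < q.2 →
      labP lab q = lab c.1 c.2 := by
    intro q hq e1 e2
    unfold labP
    rw [Int.floor_eq_iff.2 ⟨e1.le, hq.1.2⟩, Int.floor_eq_iff.2 ⟨e2.le, hq.2.2⟩]
  have q01 : ∀ q : Plane, ((c.1 : ℝ) - 1 < q.1 ∧ q.1 < c.1 + 1) ∧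
      ((c.2 : ℝ) - 1 < q.2 ∧ q.2 < c.2 + 1) → q.1 < (c.1 : ℝ) → (c.2 : ℝ) < q.2 →
      labP lab q = lab (c.1 - 1) c.2 := by
    intro q hq e1 e2
    have e3 : ⌊q.1⌋ = c.1 - 1 := Int.floor_eq_iff.2
      ⟨by push_cast; exact hq.1.1.le, by push_cast; linarith⟩
    unfold labP
    rw [e3, Int.floor_eq_iff.2 ⟨e2.le, hq.2.2⟩]
  have q10 : ∀ q : Plane, ((c.1 : ℝ) - 1 < q.1 ∧ q.1 < c.1 + 1) ∧
      ((c.2 : ℝ) - 1 < q.2 ∧ q.2 < c.2 + 1) → (c.1 : ℝ) < q.1 → q.2 < (c.2 : ℝ) →
      labP lab q = lab c.1 (c.2 - 1) := by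
    intro q hq e1 e2
    have e3 : ⌊q.2⌋ = c.2 - 1 := Int.floor_eq_iff.2
      ⟨by push_cast; exact hq.2.1.le, by push_cast; linarith⟩
    unfold labP
    rw [e3, Int.floor_eq_iff.2 ⟨e1.le, hq.1.2⟩]
  have q00 : ∀ q : Plane, ((c.1 : ℝ) - 1 < q.1 ∧ q.1 < c.1 + 1) ∧
      ((c.2 : ℝ) - 1 < q.2 ∧ q.2 < c.2 + 1) → q.1 < (c.1 : ℝ) → q.2 < (c.2 : ℝ) →
      labP lab q = lab (c.1 - 1) (c.2 - 1) := by
    intro q hq e1 e2
    have e3 : ⌊q.1⌋ = c.1 - 1 := Int.floor_eq_iff.2
      ⟨by push_cast; exact hq.1.1.le, by push_cast; linarith⟩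
    have e4 : ⌊q.2⌋ = c.2 - 1 := Int.floor_eq_iff.2
      ⟨by push_cast; exact hq.2.1.le, by push_cast; linarith⟩
    unfold labP
    rw [e3, e4]
  -- adjacencies
  have kl := G.adjH k _ _ hH.1
  have kr := G.adjH k _ _ hH.2.1
  have ld := G.adjV l _ _ hV.1
  have lu := G.adjV l _ _ hV.2.1
  have kl' := G.symm _ _ _ kl
  have kr' := G.symm _ _ _ kr
  have ld' := G.symm _ _ _ ld
  have lu' := G.symm _ _ _ lu
  rcases h1 with ⟨a1, b1⟩ | ⟨a1, b1⟩ <;> rcases h2 with ⟨a2, b2⟩ | ⟨a2, b2⟩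
  · refine ⟨lab (c.1 - 1) (c.2 - 1), lab (c.1 - 1) c.2, lab c.1 c.2, ?_, ?_, kl, lu⟩
    · filter_upwards [hnl, a1, a2] with t h e1 e2 using q00 _ h e1 e2
    · filter_upwards [hnr, b1, b2] with t h e1 e2 using q11 _ h e1 e2
  · refine ⟨lab (c.1 - 1) c.2, lab (c.1 - 1) (c.2 - 1), lab c.1 (c.2 - 1), ?_, ?_, kl', ld⟩
    · filter_upwards [hnl, a1, a2] with t h e1 e2 using q01 _ h e1 e2
    · filter_upwards [hnr, b1, b2] with t h e1 e2 using q10 _ h e1 e2
  · refine ⟨lab c.1 (c.2 - 1), lab c.1 c.2, lab (c.1 - 1) c.2, ?_, ?_, kr, lu'⟩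
    · filter_upwards [hnl, a1, a2] with t h e1 e2 using q10 _ h e1 e2
    · filter_upwards [hnr, b1, b2] with t h e1 e2 using q01 _ h e1 e2
  · refine ⟨lab c.1 c.2, lab c.1 (c.2 - 1), lab (c.1 - 1) (c.2 - 1), ?_, ?_, kr', ld'⟩
    · filter_upwards [hnl, a1, a2] with t h e1 e2 using q11 _ h e1 e2
    · filter_upwards [hnr, b1, b2] with t h e1 e2 using q00 _ h e1 e2

/-- A new arc that meets every arc once gives a walk in the dual graph. -/
theorem dual_walk (G : GridSys ι L lab adj) {k1 k2 : ι} {γ : ℝ → Plane}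
    (hc : ContinuousOn γ (Icc 0 1)) (hi : InjOn γ (Icc 0 1))
    (h1 : ∀ t ∈ Icc (0 : ℝ) 1, γ t ∈ polySet (L k1) → t = 0)
    (h2 : ∀ t ∈ Icc (0 : ℝ) 1, γ t ∈ polySet (L k2) → t = 1)
    (hl : ∀ l, l ≠ k1 → l ≠ k2 → ∃ p, γ '' Icc 0 1 ∩ polySet (L l) = {p} ∧
      ProperCrossing (polySet (L l)) (γ '' Icc 0 1) p)
    (h0 : ∀ l, l ≠ k1 → γ 0 ∉ polySet (L l)) (h0' : ∀ l, l ≠ k2 → γ 1 ∉ polySet (L l))
    (hends : ∀ l, l ≠ k1 → l ≠ k2 → ∀ c : ℤ × ℤ, toP c ∈ γ '' Icc 0 1 →
      some c ≠ (L l).head? ∧ some c ≠ (L l).getLast?)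
    {f0 f1 : ℕ} (hf0 : ∀ i j, NearI (γ 0).1 i → NearI (γ 0).2 j → lab i j = f0)
    (hf1 : ∀ i j, NearI (γ 1).1 i → NearI (γ 1).2 j → lab i j = f1) :
    Reach adj f0 ((Finset.univ.erase k1).erase k2) f1 := by
  classical
  set K := (Finset.univ.erase k1).erase k2 with hK
  have hKm : ∀ l, l ∈ K ↔ l ≠ k2 ∧ l ≠ k1 := by intro l; simp [hK]
  have hev : ∀ l ∈ K, ∃ t ∈ Ioo (0 : ℝ) 1, γ t ∈ polySet (L l) ∧
      (∀ s ∈ Icc (0 : ℝ) 1, γ s ∈ polySet (L l) → s = t) ∧
      ProperCrossing (polySet (L l)) (γ '' Icc 0 1) (γ t) := by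
    intro l hlK
    obtain ⟨hl2, hl1⟩ := (hKm l).1 hlK
    obtain ⟨p, hp, hx⟩ := hl l hl1 hl2
    have hpm : p ∈ γ '' Icc 0 1 ∩ polySet (L l) := by rw [hp]; rfl
    obtain ⟨⟨t, ht, rfl⟩, hpl⟩ := hpm
    refine ⟨t, ⟨lt_of_le_of_ne ht.1 ?_, lt_of_le_of_ne ht.2 ?_⟩, hpl, ?_, hx⟩
    · rintro rfl; exact h0 l hl1 hpl
    · rintro rfl; exact h0' l hl2 hpl
    · intro s hs hsl
      have : γ s ∈ γ '' Icc 0 1 ∩ polySet (L l) := ⟨⟨s, hs, rfl⟩, hsl⟩
      rw [hp] at this
      exact hi hs ht this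
  choose! τ hτ1 hτ2 hτ3 hτ4 using hev
  have hoff : ∀ t ∈ Ioo (0 : ℝ) 1, (∀ l ∈ K, τ l ≠ t) → ∀ k, γ t ∉ polySet (L k) := by
    intro t ht hne k hk
    by_cases e1 : k = k1
    · subst e1; exact (ne_of_gt ht.1) (h1 t (Ioo_subset_Icc_self ht) hk)
    by_cases e2 : k = k2
    · subst e2; exact (ne_of_lt ht.2) (h2 t (Ioo_subset_Icc_self ht) hk)
    have hkK := (hKm k).2 ⟨e2, e1⟩
    exact hne k hkK (hτ3 k hkK t (Ioo_subset_Icc_self ht) hk).symm
  have hconst : ∀ s t, 0 < s → s ≤ t → t < 1 → (∀ r ∈ Icc s t, ∀ l ∈ K, τ l ≠ r) →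
      labP lab (γ s) = labP lab (γ t) := by
    intro s t hs hst ht hne
    refine lab_const G (C := γ '' Icc s t) ?_ ?_ ⟨s, ⟨le_rfl, hst⟩, rfl⟩ ⟨t, ⟨hst, le_rfl⟩, rfl⟩
    · rintro _ ⟨r, hr, rfl⟩
      exact hoff r ⟨hs.trans_le hr.1, hr.2.trans_lt ht⟩ (hne r hr)
    · refine isPreconnected_Icc.image _ (hc.mono ?_)
      exact Icc_subset_Icc hs.le ht.le
  have hstart : ∀ᶠ s in 𝓝[>] (0 : ℝ), labP lab (γ s) = f0 := by
    have hlim : Tendsto γ (𝓝[>] 0) (𝓝 (γ 0)) := by
      have h := hc 0 ⟨le_rfl, zero_le_one⟩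
      rw [← nhdsWithin_Ioo_eq_nhdsGT (zero_lt_one (α := ℝ))]
      exact h.mono_left (nhdsWithin_mono _ Ioo_subset_Icc_self)
    filter_upwards [hlim.eventually (near_cells (γ 0))] with s hs
    obtain ⟨i, j, hi', hj', e1, e2⟩ := hs
    unfold labP
    rw [e1, e2]
    exact hf0 i j hi' hj'
  have hend : ∀ᶠ s in 𝓝[<] (1 : ℝ), labP lab (γ s) = f1 := by
    have hlim : Tendsto γ (𝓝[<] 1) (𝓝 (γ 1)) := by
      have h := hc 1 ⟨zero_le_one, le_rfl⟩
      rw [← nhdsWithin_Ioo_eq_nhdsLT (zero_lt_one (α := ℝ))]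
      exact h.mono_left (nhdsWithin_mono _ Ioo_subset_Icc_self)
    filter_upwards [hlim.eventually (near_cells (γ 1))] with s hs
    obtain ⟨i, j, hi', hj', e1, e2⟩ := hs
    unfold labP
    rw [e1, e2]
    exact hf1 i j hi' hj'
  set T : ℝ → Finset ι := fun t => K.filter (fun l => τ l < t) with hT
  have hTm : ∀ t l, l ∈ T t ↔ l ∈ K ∧ τ l < t := by intro t l; simp [hT]
  have claim : ∀ n : ℕ, ∀ t ∈ Ioo (0 : ℝ) 1, (∀ l ∈ K, τ l ≠ t) → (T t).card = n →
      Reach adj f0 (T t) (labP lab (γ t)) := by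
    intro n
    induction n using Nat.strong_induction_on with
    | _ n ih =>
      intro t ht hne hcard
      rcases Finset.eq_empty_or_nonempty (T t) with hTe | hTne
      · -- no event before `t`
        obtain ⟨s, hs1, hs2⟩ := (hstart.and (Ioo_mem_nhdsGT ht.1)).exists
        have := hconst s t hs2.1 hs2.2.le ht.2 (by
          intro r hr l hlK hτ
          rcases hr.2.lt_or_eq with h | h
          · have : l ∈ T t := (hTm t l).2 ⟨hlK, hτ ▸ h⟩
            rw [hTe] at this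
            simp at this
          · exact hne l hlK (hτ.trans h))
        rw [hTe, ← this, hs1]
        exact Reach.start
      · obtain ⟨l0, hl0T, hmax⟩ := Finset.exists_max_image (T t) τ hTne
        obtain ⟨hl0K, hl0t⟩ := (hTm t l0).1 hl0T
        set t0 := τ l0 with ht0def
        have ht0 := hτ1 l0 hl0K
        set T0 := K.filter (fun l => τ l < t0) with hT0
        have hT0m : ∀ l, l ∈ T0 ↔ l ∈ K ∧ τ l < t0 := by intro l; simp [hT0]
        have hl0T0 : l0 ∉ T0 := fun h => lt_irrefl _ ((hT0m l0).1 h).2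
        have hlt : T0.card < n := by
          rw [← hcard]
          refine Finset.card_lt_card ?_
          rw [Finset.ssubset_iff_of_subset]
          · exact ⟨l0, hl0T, hl0T0⟩
          · intro l hl'
            obtain ⟨a, b⟩ := (hT0m l).1 hl'
            exact (hTm t l).2 ⟨a, b.trans hl0t⟩
        have hbefore : ∀ᶠ s in 𝓝[<] t0, 0 < s ∧ s < t0 ∧ ∀ l ∈ K, τ l < t0 → τ l < s := by
          have e1 : ∀ᶠ s in 𝓝[<] t0, 0 < s ∧ s < t0 := Ioo_mem_nhdsLT ht0.1
          have e2 : ∀ᶠ s in 𝓝[<] t0, ∀ l ∈ K, τ l < t0 → τ l < s := by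
            rw [Filter.eventually_all_finset]
            intro l _
            by_cases h : τ l < t0
            · filter_upwards [Ioo_mem_nhdsLT h] with s hs _ using hs.1
            · exact Filter.Eventually.of_forall fun s h' => absurd h' h
          filter_upwards [e1, e2] with s a b using ⟨a.1, a.2, b⟩
        have hbefore' : ∀ᶠ s in 𝓝[<] t0, Reach adj f0 T0 (labP lab (γ s)) := by
          filter_upwards [hbefore] with s hs
          obtain ⟨hs0, hs1, hs2⟩ := hs
          have hTs : T s = T0 := by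
            ext l
            rw [hTm, hT0m]
            constructor
            · rintro ⟨a, b⟩; exact ⟨a, b.trans hs1⟩
            · rintro ⟨a, b⟩; exact ⟨a, hs2 l a b⟩
          have := ih T0.card hlt s ⟨hs0, hs1.trans ht0.2⟩ (by
            intro l hlK hτ
            have := hs2 l hlK (hτ ▸ hs1)
            exact (ne_of_lt this) hτ) (by rw [hTs])
          rwa [hTs] at this
        have hafter : ∀ᶠ s in 𝓝[>] t0, labP lab (γ s) = labP lab (γ t) := by
          filter_upwards [Ioo_mem_nhdsGT hl0t] with s hs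
          refine hconst s t (ht0.1.trans hs.1) hs.2.le ht.2 ?_
          intro r hr l hlK hτ
          rcases hr.2.lt_or_eq with h | h
          · have : l ∈ T t := (hTm t l).2 ⟨hlK, hτ ▸ h⟩
            have := hmax l this
            rw [hτ] at this
            exact absurd (hs.1.trans_le hr.1) (not_lt.2 this)
          · exact hne l hlK (hτ.trans h)
        have hTle : ∀ l, l ∈ T t → l ∉ T0 → τ l = t0 := by
          intro l hlT hlT0
          have a := hmax l hlT
          have b : ¬ τ l < t0 := fun h => hlT0 ((hT0m l).2 ⟨((hTm t l).1 hlT).1, h⟩)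
          exact le_antisymm a (not_lt.1 b)
        by_cases hd : ∃ l1 ∈ K, l1 ≠ l0 ∧ γ t0 ∈ polySet (L l1)
        · -- two arcs cross at `γ t0`
          obtain ⟨l1, hl1K, hl10, hl1p⟩ := hd
          have ht1 : t0 = τ l1 := hτ3 l1 hl1K t0 (Ioo_subset_Icc_self ht0) hl1p
          obtain ⟨c, hc0, hc1, hcu, hor⟩ := G.cross l0 l1 hl10.symm
          have hpc : γ t0 = toP c := by
            have := inter_eq G hc0 hc1 hcu
            have hm : γ t0 ∈ polySet (L l0) ∩ polySet (L l1) := ⟨hτ2 l0 hl0K, hl1p⟩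
            rw [this] at hm
            exact hm
          have hx0 : ProperCrossing (polySet (L l0)) (γ '' Icc 0 1) (toP c) := by
            rw [← hpc]; exact hτ4 l0 hl0K
          have hx1 : ProperCrossing (polySet (L l1)) (γ '' Icc 0 1) (toP c) := by
            have := hτ4 l1 hl1K
            rw [← ht1, hpc] at this
            exact this
          have hTeq : T t = insert l1 (insert l0 T0) := by
            ext l
            rw [Finset.mem_insert, Finset.mem_insert]
            constructor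
            · intro hlT
              by_cases h0T : l ∈ T0
              · exact Or.inr (Or.inr h0T)
              · have hτl := hTle l hlT h0T
                have hlK := ((hTm t l).1 hlT).1
                by_contra hcon
                push Not at hcon
                obtain ⟨n1, n2, _⟩ := hcon
                -- three arcs at one point
                have hlp : γ t0 ∈ polySet (L l) := hτl ▸ hτ2 l hlK
                have hcl : c ∈ L l :=
                  (mem_polySet_grid (G.path l) (G.len l) c).1 (hpc ▸ hlp)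
                obtain ⟨c', _, _, hu', hor'⟩ := G.cross l0 l n2.symm
                obtain ⟨c'', _, _, hu'', hor''⟩ := G.cross l1 l n1.symm
                have e1 := hu' c hc0 hcl
                have e2 := hu'' c hc1 hcl
                subst e1
                subst e2
                rcases hor with ⟨x1, x2, x3, x4, x5, x6, x7, x8⟩ | ⟨x1, x2, x3, x4, x5, x6, x7, x8⟩ <;>
                rcases hor' with ⟨y1, y2, y3, y4, y5, y6, y7, y8⟩ | ⟨y1, y2, y3, y4, y5, y6, y7, y8⟩ <;>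
                rcases hor'' with ⟨z1, z2, z3, z4, z5, z6, z7, z8⟩ | ⟨z1, z2, z3, z4, z5, z6, z7, z8⟩ <;>
                first
                  | exact x3 y6
                  | exact x7 y2
                  | exact x3 z6
                  | exact x7 z2
                  | exact y3 z6
                  | exact y7 z2
            · rintro (rfl | rfl | h)
              · exact (hTm t l).2 ⟨hl1K, ht1 ▸ hl0t⟩
              · exact hl0T
              · obtain ⟨a, b⟩ := (hT0m l).1 h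
                exact (hTm t l).2 ⟨a, b.trans hl0t⟩
          have hl1T0 : l1 ∉ T0 := fun h => by
            have := ((hT0m l1).1 h).2
            rw [← ht1] at this
            exact lt_irrefl _ this
          have o0 : ∀ s ∈ Icc (0 : ℝ) 1, γ s ∈ polySet (L l0) → s = t0 := hτ3 l0 hl0K
          have o1 : ∀ s ∈ Icc (0 : ℝ) 1, γ s ∈ polySet (L l1) → s = t0 := fun s hs h =>
            (hτ3 l1 hl1K s hs h).trans ht1.symm
          rcases hor with ⟨x1, x2, x3, x4, x5, x6, x7, x8⟩ | ⟨x1, x2, x3, x4, x5, x6, x7, x8⟩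
          · obtain ⟨a, m, b, ha, hb, hkm, hlm⟩ := double_step G ⟨x1, x2, x3, x4⟩ ⟨x5, x6, x7, x8⟩
              hc hi rfl ht0 hpc hx0 hx1 o0 o1
            obtain ⟨s, hs1, hs2⟩ := (ha.and hbefore').exists
            obtain ⟨s', hs1', hs2'⟩ := (hb.and hafter).exists
            rw [hTeq, ← hs2', hs1']
            refine Reach.step (Reach.step ?_ hl0T0 hkm) ?_ hlm
            · rw [← hs1]; exact hs2
            · rw [Finset.mem_insert]
              rintro (h | h)
              · exact hl10 h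
              · exact hl1T0 h
          · obtain ⟨a, m, b, ha, hb, hkm, hlm⟩ := double_step G ⟨x1, x2, x3, x4⟩ ⟨x5, x6, x7, x8⟩
              hc hi rfl ht0 hpc hx1 hx0 o1 o0
            obtain ⟨s, hs1, hs2⟩ := (ha.and hbefore').exists
            obtain ⟨s', hs1', hs2'⟩ := (hb.and hafter).exists
            rw [hTeq, Finset.insert_comm, ← hs2', hs1']
            refine Reach.step (Reach.step ?_ hl1T0 hkm) ?_ hlm
            · rw [← hs1]; exact hs2
            · rw [Finset.mem_insert]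
              rintro (h | h)
              · exact hl10 h.symm
              · exact hl0T0 h
        · -- one arc at `γ t0`
          push Not at hd
          have hother : ∀ l, l ≠ l0 → γ t0 ∉ polySet (L l) := by
            intro l hl' hp
            by_cases e1 : l = k1
            · subst e1; exact (ne_of_gt ht0.1) (h1 t0 (Ioo_subset_Icc_self ht0) hp)
            by_cases e2 : l = k2
            · subst e2; exact (ne_of_lt ht0.2) (h2 t0 (Ioo_subset_Icc_self ht0) hp)
            exact hd l ((hKm l).2 ⟨e2, e1⟩) hl' hp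
          have hTeq : T t = insert l0 T0 := by
            ext l
            rw [Finset.mem_insert]
            constructor
            · intro hlT
              by_cases h0T : l ∈ T0
              · exact Or.inr h0T
              · left
                by_contra hne0
                have hτl := hTle l hlT h0T
                have hlK := ((hTm t l).1 hlT).1
                exact hother l hne0 (hτl ▸ hτ2 l hlK)
            · rintro (rfl | h)
              · exact hl0T
              · obtain ⟨a, b⟩ := (hT0m l).1 h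
                exact (hTm t l).2 ⟨a, b.trans hl0t⟩
          set N : Set Plane := ⋂ l ∈ (Finset.univ.erase l0 : Finset ι), (polySet (L l))ᶜ with hN
          have hNn : N ∈ 𝓝 (γ t0) := by
            rw [hN, Filter.biInter_finset_mem]
            intro l hl'
            exact (polySet_isClosed G l).isOpen_compl.mem_nhds
              (hother l (Finset.ne_of_mem_erase hl'))
          have hNoff : ∀ q ∈ N \ polySet (L l0), ∀ k, q ∉ polySet (L k) := by
            intro q hq k hk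
            by_cases e : k = l0
            · subst e; exact hq.2 hk
            · have := hq.1
              rw [hN, mem_iInter₂] at this
              exact this k (Finset.mem_erase.2 ⟨e, Finset.mem_univ _⟩) hk
          obtain ⟨a, b, ha, hb, hnear⟩ := side_lemma (hτ4 l0 hl0K) hc hi rfl ht0 rfl
            (labP lab) hNn (by
              intro C hC hpc x hx y hy
              exact lab_const G (fun q hq => hNoff q (hC hq)) hpc hx hy)
          have hγ0 : ContinuousAt γ t0 := hc.continuousAt (Icc_mem_nhds ht0.1 ht0.2)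
          have hcells : ∀ᶠ s in 𝓝 t0, ∃ i j, NearI (γ t0).1 i ∧ NearI (γ t0).2 j ∧
              ⌊(γ s).1⌋ = i ∧ ⌊(γ s).2⌋ = j := hγ0.eventually (near_cells (γ t0))
          have hadj : adj l0 a b := by
            refine step_single G (hτ2 l0 hl0K) hother ?_ ?_ ?_ ?_
            · intro c hcc
              obtain ⟨hl2, hl1⟩ := (hKm l0).1 hl0K
              exact hends l0 hl1 hl2 c (hcc ▸ ⟨t0, Ioo_subset_Icc_self ht0, rfl⟩)
            · intro i j hi' hj'
              obtain ⟨q, hq1, hq2, hq3, hq4⟩ := cell_accumulates G hi' hj' hnear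
              have := hq1 (hq2 l0)
              unfold labP at this
              rwa [hq3, hq4] at this
            · have hcl : ∀ᶠ s in 𝓝[<] t0, ∃ i j, NearI (γ t0).1 i ∧ NearI (γ t0).2 j ∧
                ⌊(γ s).1⌋ = i ∧ ⌊(γ s).2⌋ = j := nhdsWithin_le_nhds hcells
              obtain ⟨s, hs, i, j, e1, e2, e3, e4⟩ := (ha.and hcl).exists
              refine ⟨i, j, e1, e2, ?_⟩
              rw [← hs]; unfold labP; rw [e3, e4]
            · have hcr : ∀ᶠ s in 𝓝[>] t0, ∃ i j, NearI (γ t0).1 i ∧ NearI (γ t0).2 j ∧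
                ⌊(γ s).1⌋ = i ∧ ⌊(γ s).2⌋ = j := nhdsWithin_le_nhds hcells
              obtain ⟨s, hs, i, j, e1, e2, e3, e4⟩ := (hb.and hcr).exists
              refine ⟨i, j, e1, e2, ?_⟩
              rw [← hs]; unfold labP; rw [e3, e4]
          obtain ⟨s, hs1, hs2⟩ := (ha.and hbefore').exists
          obtain ⟨s', hs1', hs2'⟩ := (hb.and hafter).exists
          rw [hTeq, ← hs2', hs1']
          refine Reach.step ?_ hl0T0 hadj
          rw [← hs1]; exact hs2
  -- end of the walk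
  have hall : ∀ᶠ s in 𝓝[<] (1 : ℝ), ∀ l ∈ K, τ l < s := by
    rw [Filter.eventually_all_finset]
    intro l hlK
    filter_upwards [Ioo_mem_nhdsLT (hτ1 l hlK).2] with s hs using hs.1
  obtain ⟨t, ht1, ht2, ht3⟩ := (hend.and (hall.and (Ioo_mem_nhdsLT (zero_lt_one (α := ℝ))))).exists
  have hTt : T t = K := by
    ext l
    rw [hTm]
    exact ⟨fun h => h.1, fun h => ⟨h, ht2 l h⟩⟩
  have := claim _ t ht3 (fun l hlK => ne_of_lt (ht2 l hlK)) rfl
  rw [hTt, ht1] at this
  exact this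

end

end Pool.Agent.Work.MP_2f2fa8_co
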